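import Pool.Agent.Lib.MP_06caae_pr.B.Low

/-!
# The scale is attained at every radius, given the growth lemmas
-/

open Finset

namespace Pool.Agent.Lib.MP_06caae_pr

open Pool.Agent.Lib.MP_566bac_pr.Zd

variable {d : ℕ}

/-- growth lemma, first form: a small fraction displaced by `s` at radius `r` gives the universal
fraction `c₀` displaced by `s / 3` at all radii `≥ (K₁ / η) r` -/
def Growth1 (π : ℕ → V d → ℝ) (c₀ K₁ : ℝ) : Prop :=
  ∀ η : ℝ, 0 < η → η ≤ 1 → ∃ s₀ : ℝ, ∀ (r : ℕ) (s : ℝ), s₀ ≤ r → s₀ ≤ s → η * r ≤ Tm π r s →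
    ∀ R : ℕ, K₁ / η * r ≤ R → c₀ * R ≤ Tm π R (s / 3)

/-- growth lemma, second form: doubling of the displacement -/
def Growth2 (π : ℕ → V d → ℝ) (c₀ K₀ : ℝ) : Prop :=
  ∃ s₁ : ℝ, ∀ (r : ℕ) (s : ℝ), s₁ ≤ r → s₁ ≤ s → c₀ * r ≤ Tm π r s →
    ∀ R : ℕ, K₀ * r ≤ R → c₀ * R ≤ Tm π R (2 * s)

/-- the extrinsic scale -/
noncomputable def scale (π : ℕ → V d → ℝ) (C : ℝ) (i : Fin d) (c : ℝ) (r : ℕ) : ℝ :=
  env (fun s => (alpha π C i s : ℝ)) c r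

section
variable {π : ℕ → V d → ℝ} {C : ℝ}

lemma PiData.alpha_one_le (h : PiData d π C) (i : Fin d) : ∀ s, 1 ≤ s → (1 : ℝ) ≤ alpha π C i s := by
  intro s hs
  exact_mod_cast (h.alpha_mem i hs).1

theorem PiData.up (h : PiData d π C) (i : Fin d) {c : ℝ} (hc : 0 < c) (hcd : c * d ≤ 1 / 2) {c₀ K₁ : ℝ}
    {K₀ : ℕ} (hK₀ : 2 ≤ K₀) (hcK : (K₀ : ℝ) ^ c ≤ 2) (g1 : Growth1 π c₀ K₁)
    (g2 : Growth2 π c₀ K₀) :
    ∃ Λ r₀ : ℕ, 1 ≤ Λ ∧ ∀ r : ℕ, r₀ ≤ r → c₀ * ((Λ * r : ℕ) : ℝ) ≤ Tm π (Λ * r) (scale π C i c r / 24) := by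
  obtain ⟨c₁', hc₁', n₀, hlow'⟩ := h.low i hc
  set c₁ := min c₁' 1 with hc₁def
  have hc₁ : 0 < c₁ := lt_min hc₁' one_pos
  have hlow : ∀ R : ℕ, n₀ ≤ R → 1 ≤ R →
      (∀ t : ℕ, 1 ≤ t → t ≤ R → (alpha π C i t : ℝ) ≤ alpha π C i R * ((t : ℝ) / R) ^ c) →
      c₁ * R ≤ Tm π R (alpha π C i R / 4) := fun R h1 h2 h3 =>
    (mul_le_mul_of_nonneg_right (min_le_left _ _) (Nat.cast_nonneg R)).trans (hlow' R h1 h2 h3)
  obtain ⟨s₀', hs₀'⟩ := g1 c₁ hc₁ (min_le_right _ _)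
  obtain ⟨s₀, hs₀n⟩ := exists_nat_ge s₀'
  have hs₀ : ∀ (r : ℕ) (s : ℝ), s₀ ≤ r → (s₀ : ℝ) ≤ s → c₁ * r ≤ Tm π r s →
      ∀ R : ℕ, K₁ / c₁ * r ≤ R → c₀ * R ≤ Tm π R (s / 3) := fun r s h1 h2 =>
    hs₀' r s (hs₀n.trans (by exact_mod_cast h1)) (hs₀n.trans h2)
  obtain ⟨s₁', hs₁'⟩ := g2
  obtain ⟨s₁, hs₁n⟩ := exists_nat_ge s₁'
  have hs₁ : ∀ (r : ℕ) (s : ℝ), s₁ ≤ r → (s₁ : ℝ) ≤ s → c₀ * r ≤ Tm π r s →
      ∀ R : ℕ, K₀ * r ≤ R → c₀ * R ≤ Tm π R (2 * s) := fun r s h1 h2 h3 R h4 =>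
    hs₁' r s (hs₁n.trans (by exact_mod_cast h1)) (hs₁n.trans h2) h3 R (by exact_mod_cast h4)
  obtain ⟨K, hK, hα⟩ := h.alpha_ge i
  obtain ⟨Λ, hΛ⟩ := exists_nat_gt (max (K₁ / c₁) 1)
  have hΛ1 : 1 ≤ Λ := by
    have : (1 : ℝ) < Λ := lt_of_le_of_lt (le_max_right _ _) hΛ
    have : 1 < Λ := by exact_mod_cast this
    omega
  have hΛK : K₁ / c₁ ≤ Λ := (le_max_left _ _).trans hΛ.le
  obtain ⟨n₁, hn₁⟩ := exists_nat_gt (K * (4 * (s₀ : ℝ) + 12 * s₁) ^ d)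
  obtain ⟨r₀, hr₀⟩ := env_big (α := fun s => (alpha π C i s : ℝ)) hc.le hcd (h.alpha_one_le i) hK hα (n₀ + s₀ + s₁ + n₁ + 1)
  refine ⟨Λ, max r₀ 1, hΛ1, fun r hr => ?_⟩
  have hr1 : 1 ≤ r := (le_max_right _ _).trans hr
  obtain ⟨s, hs, hsr, hsm⟩ := env_exists (α := fun s => (alpha π C i s : ℝ)) (c := c) hr1
  have hsn := hr₀ r s ((le_max_left _ _).trans hr) hs hsr hsm
  have hs0 : (0 : ℝ) < s := by exact_mod_cast hs
  -- the scale at the maximising radius is large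
  have hbig : 4 * (s₀ : ℝ) + 12 * s₁ < alpha π C i s := by
    by_contra h1
    push Not at h1
    have h2 := hα s hs
    have h3 : K * (alpha π C i s : ℝ) ^ d ≤ K * (4 * (s₀ : ℝ) + 12 * s₁) ^ d :=
      mul_le_mul_of_nonneg_left (pow_le_pow_left₀ (Nat.cast_nonneg _) h1 d) hK.le
    have h4 : (n₁ : ℝ) ≤ s := by exact_mod_cast (by omega : n₁ ≤ s)
    linarith
  have hs₀p : (0 : ℝ) ≤ s₀ := Nat.cast_nonneg _
  have hs₁p : (0 : ℝ) ≤ s₁ := Nat.cast_nonneg _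
  -- mass at the maximising radius
  have hmass := hlow s (by omega) hs fun t ht hts =>
    env_max (α := fun s => (alpha π C i s : ℝ)) hs hsr hsm ht (hts.trans hsr)
  have hfirst := hs₀ s (alpha π C i s / 4) (by omega) (by linarith) hmass
  -- induction on the number of doublings
  have hstep : ∀ j : ℕ, ∀ R : ℕ, K₀ ^ j * (Λ * s) ≤ R → c₀ * R ≤ Tm π R (2 ^ j * (alpha π C i s / 12)) := by
    intro j
    induction j with
    | zero =>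
      intro R hR
      rw [pow_zero, one_mul] at hR
      rw [pow_zero, one_mul]
      have h1 : K₁ / c₁ * s ≤ R := by
        have h2 : ((Λ * s : ℕ) : ℝ) ≤ R := by exact_mod_cast hR
        push_cast at h2
        exact (mul_le_mul_of_nonneg_right hΛK hs0.le).trans h2
      have h2 := hfirst R h1
      have h3 : (alpha π C i s : ℝ) / 4 / 3 = alpha π C i s / 12 := by ring
      rwa [h3] at h2
    | succ j ih =>
      intro R hR
      have h1 : K₀ ^ j * (Λ * s) ≤ R / K₀ := by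
        rw [Nat.le_div_iff_mul_le (by omega)]
        calc K₀ ^ j * (Λ * s) * K₀ = K₀ ^ (j + 1) * (Λ * s) := by ring
          _ ≤ R := hR
      have h2 := ih (R / K₀) h1
      have h3 : (s₁ : ℝ) ≤ 2 ^ j * (alpha π C i s / 12) := by
        have h4 : (1 : ℝ) ≤ 2 ^ j := one_le_pow₀ (by norm_num)
        have h5 : (0 : ℝ) ≤ alpha π C i s / 12 := by positivity
        nlinarith
      have hsR : s₁ ≤ R / K₀ := by
        have h5 : s ≤ K₀ ^ j * (Λ * s) := by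
          calc s = 1 * (1 * s) := by ring
            _ ≤ K₀ ^ j * (Λ * s) := Nat.mul_le_mul (Nat.one_le_pow _ _ (by omega)) (Nat.mul_le_mul_right _ hΛ1)
        omega
      have h4 := hs₁ (R / K₀) _ hsR h3 h2 R (Nat.mul_div_le R K₀)
      have h5 : 2 * (2 ^ j * ((alpha π C i s : ℝ) / 12)) = 2 ^ (j + 1) * (alpha π C i s / 12) := by ring
      rwa [h5] at h4
  -- the number of doublings
  have hK₀' : (0 : ℝ) < K₀ := by exact_mod_cast (by omega : 0 < K₀)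
  have hrs : r / s ≠ 0 := by
    have := (Nat.one_le_div_iff hs).2 hsr
    omega
  have h1 : K₀ ^ (Nat.log K₀ (r / s)) ≤ r / s := Nat.pow_log_le_self K₀ hrs
  have h2 : K₀ ^ (Nat.log K₀ (r / s)) * (Λ * s) ≤ Λ * r := by
    calc K₀ ^ (Nat.log K₀ (r / s)) * (Λ * s) ≤ (r / s) * (Λ * s) := Nat.mul_le_mul_right _ h1
      _ = Λ * (s * (r / s)) := by ring
      _ ≤ Λ * r := Nat.mul_le_mul_left _ (Nat.mul_div_le r s)
  have h3 := hstep _ (Λ * r) h2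
  refine h3.trans (Tm_anti h _ ?_)
  set j := Nat.log K₀ (r / s) with hj
  have h4 : r / s < K₀ ^ (j + 1) := Nat.lt_pow_succ_log_self (by omega) _
  have h5 : r < K₀ ^ (j + 1) * s := by
    rwa [Nat.div_lt_iff_lt_mul hs] at h4
  have h6 : (r : ℝ) / s ≤ (K₀ : ℝ) ^ (j + 1) := by
    rw [div_le_iff₀ hs0]
    have h7 : (r : ℝ) < ((K₀ ^ (j + 1) * s : ℕ) : ℝ) := by exact_mod_cast h5
    push_cast at h7
    exact h7.le
  have h7 : ((r : ℝ) / s) ^ c ≤ 2 ^ (j + 1) := by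
    calc ((r : ℝ) / s) ^ c ≤ ((K₀ : ℝ) ^ (j + 1)) ^ c := Real.rpow_le_rpow (by positivity) h6 hc.le
      _ = ((K₀ : ℝ) ^ c) ^ (j + 1) := by
        rw [← Real.rpow_natCast, ← Real.rpow_mul hK₀'.le, mul_comm, Real.rpow_mul hK₀'.le, Real.rpow_natCast]
      _ ≤ 2 ^ (j + 1) := pow_le_pow_left₀ (Real.rpow_nonneg hK₀'.le c) hcK _
  unfold scale
  rw [hsm]
  have h8 : (0 : ℝ) ≤ alpha π C i s := Nat.cast_nonneg _
  calc (alpha π C i s : ℝ) * ((r : ℝ) / s) ^ c / 24 ≤ alpha π C i s * 2 ^ (j + 1) / 24 := by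
        apply div_le_div_of_nonneg_right _ (by norm_num)
        exact mul_le_mul_of_nonneg_left h7 h8
    _ = 2 ^ j * (alpha π C i s / 12) := by ring

/-- there is an exponent which fits -/
lemma exists_exponent (hd : 0 < d) {K₀ : ℕ} (hK₀ : 2 ≤ K₀) :
    ∃ c : ℝ, 0 < c ∧ c ≤ 1 / 2 ∧ c * d ≤ 1 / 2 ∧ (K₀ : ℝ) ^ c ≤ 2 := by
  have hd0 : (1 : ℝ) ≤ d := by exact_mod_cast hd
  have hK : (2 : ℝ) ≤ K₀ := by exact_mod_cast hK₀
  have hl : 0 < Real.log K₀ := Real.log_pos (by linarith)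
  have hl2 : 0 < Real.log 2 := Real.log_pos (by norm_num)
  refine ⟨min (1 / (2 * d)) (Real.log 2 / Real.log K₀), lt_min (by positivity) (by positivity), ?_, ?_, ?_⟩
  · refine (min_le_left _ _).trans ?_
    rw [div_le_div_iff₀ (by positivity) (by norm_num)]
    linarith
  · calc min (1 / (2 * (d : ℝ))) (Real.log 2 / Real.log K₀) * d ≤ 1 / (2 * d) * d :=
          mul_le_mul_of_nonneg_right (min_le_left _ _) (by linarith)
      _ = 1 / 2 := by field_simp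
  · calc (K₀ : ℝ) ^ min (1 / (2 * (d : ℝ))) (Real.log 2 / Real.log K₀) ≤
        (K₀ : ℝ) ^ (Real.log 2 / Real.log K₀) :=
          Real.rpow_le_rpow_of_exponent_le (by linarith) (min_le_right _ _)
      _ = 2 := by
        rw [Real.rpow_def_of_pos (by linarith), mul_div_cancel₀ _ hl.ne', Real.exp_log (by norm_num)]

end

end Pool.Agent.Lib.MP_06caae_pr
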