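import Pool.Agent.Lib.MP_06caae_pr.B.Master
import Pool.Agent.Lib.MP_06caae_pr.B.Up

/-!
# The truncated two point function satisfies the hypotheses of the analytic part
-/

open Finset SimpleGraph
open Pool.Agent.Lib.MP_566bac_pr.Zd

namespace Pool.Agent.Lib.MP_06caae_pr

variable {d : ℕ} {p : ℝ}

/-- the splitting inequality -/
theorem ppi_split (hp : 0 ≤ p) (hp1 : p ≤ 1) {s s' : ℕ} (hs : 1 ≤ s) (h1 : s ≤ s') (h2 : 2 * s' ≤ 3 * s) (y : V d) :
    ppi p s' y ≤ ppi p s y + (2 / s) * ∑ u ∈ Lam 0 s, ppi p s u * ppi p s (y - u) := by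
  classical
  have hs0 : (0 : ℝ) < s := by exact_mod_cast hs
  set E := Ein (Lam (0 : V d) s') with hE
  set D : Set (Set (Ed d)) := {S | ∃ l, s < l ∧ l ≤ s' ∧ y ∈ sph S 0 l} with hD
  have h3 : ppi p s' y ≤ PE p E {S | Rch S 0 s y} + PE p E D := by
    refine le_trans (PE_mono hp hp1 E ?_) (Pr_union_le (wt_p hp hp1) E _ _)
    intro S hS
    obtain ⟨l, hl, hy⟩ := ball_eq_sph.1 hS
    rcases Nat.lt_or_ge s l with h4 | h4
    · exact Or.inr ⟨l, h4, hl, hy⟩
    · exact Or.inl ((mem_sph.1 hy).1.mono subset_rfl h4)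
  have h4 : PE p E {S | Rch S 0 s y} ≤ ppi p s y := by
    have := PE_le_ppi hp hp1 E 0 y s
    rwa [sub_zero] at this
  have h5 : (s : ℝ) / 2 * PE p E D ≤ ∑ u ∈ Lam 0 s, ppi p s (y - u) * PE p E {S | Rch S 0 s u} := by
    refine master hp hp1 E 0 s (Q := fun u => {T | Rch T u s y}) (c := fun u => ppi p s (y - u))
      (fun u => ppi_nonneg hp hp1 _ _) (fun u E' _ => PE_le_ppi hp hp1 E' u y s) ?_
    rintro S ⟨l, hl1, hl2, hy⟩
    refine ⟨Finset.Icc (l - s) s, ?_, ?_⟩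
    · rw [Nat.card_Icc]
      have h6 : s ≤ 2 * (s + 1 - (l - s)) := by omega
      have h7 : (s : ℝ) ≤ ((2 * (s + 1 - (l - s)) : ℕ) : ℝ) := by exact_mod_cast h6
      rw [Nat.cast_mul] at h7
      push_cast at h7 ⊢
      linarith
    · intro j hj
      rw [Finset.mem_Icc] at hj
      refine ⟨hj.2, ?_⟩
      have h6 : l = j + (l - j) := by omega
      rw [h6] at hy
      obtain ⟨u, hu, hy'⟩ := sph_rest hy
      exact ⟨u, hu, (mem_sph.1 hy').1.mono subset_rfl (by omega)⟩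
  have h6 : ∑ u ∈ Lam 0 s, ppi p s (y - u) * PE p E {S | Rch S 0 s u} ≤ ∑ u ∈ Lam 0 s, ppi p s u * ppi p s (y - u) := by
    refine sum_le_sum fun u _ => ?_
    rw [mul_comm]
    refine mul_le_mul_of_nonneg_right ?_ (ppi_nonneg hp hp1 _ _)
    have := PE_le_ppi hp hp1 E 0 u s
    rwa [sub_zero] at this
  have h7 : PE p E D ≤ (2 / s) * ∑ u ∈ Lam 0 s, ppi p s u * ppi p s (y - u) := by
    have h8 := h5.trans h6
    calc PE p E D = (2 / s) * ((s : ℝ) / 2 * PE p E D) := by field_simp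
      _ ≤ _ := mul_le_mul_of_nonneg_left h8 (by positivity)
  linarith

/-- the truncated two point function as data for the analytic part -/
theorem piData (hd : 0 < d) (hp : 0 ≤ p) (hp1 : p ≤ 1) {C : ℝ} (hC : 1 ≤ C) (hG : ∀ r : ℕ, 1 ≤ r → GG d p r ≤ C * r)
    (hG' : ∀ r : ℕ, (r : ℝ) + 1 ≤ GG d p r) : PiData d (ppi p) C where
  dim := hd
  one_le := hC
  nonneg := ppi_nonneg hp hp1
  le_one := ppi_le_one hp hp1
  supp r y h := ppi_supp r (by rw [mem_Lam, dst_comm, not_le]; exact h)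
  flip r i y := by
    classical
    have h := ppi_symE (p := p) hp hp1 (Equiv.refl _) (fun j => if j = i then -1 else 1) r y
    rw [← h]
    congr 1
    funext j
    rw [symE_apply]
    by_cases hj : j = i
    · subst hj
      simp
    · simp [Function.update_of_ne hj, hj]
  perm r σ y := by
    have h := ppi_symE (p := p) hp hp1 σ (fun _ => 1) r y
    rw [← h]
    congr 1
    funext j
    rw [symE_apply]
    simp
  G_le := hG
  G_ge := hG'
  split s s' h1 h2 h3 y := ppi_split hp hp1 h1 h2 h3 y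

end Pool.Agent.Lib.MP_06caae_pr
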