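import Pool.Agent.Lib.MP_06caae_pr.B.Up

/-!
# The scale is doubling
-/

open Finset

namespace Pool.Agent.Lib.MP_06caae_pr

open Pool.Agent.Lib.MP_566bac_pr.Zd

variable {d : ℕ}

/-- a doubling scale has a doubling envelope -/
lemma env_double {α : ℕ → ℝ} {c K : ℝ} (hc : 0 ≤ c) (hK : 1 ≤ K) (hα : ∀ s, 1 ≤ s → 1 ≤ α s)
    (h : ∀ s t : ℕ, 1 ≤ s → s ≤ t → t ≤ 2 * s → α t ≤ K * α s) {r : ℕ} (hr : 1 ≤ r) :
    env α c (2 * r) ≤ 2 ^ c * K * env α c r := by
  obtain ⟨t, ht1, ht2, ht⟩ := env_exists (α := α) (c := c) (show 1 ≤ 2 * r by omega)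
  have ht0 : (0 : ℝ) < t := by exact_mod_cast ht1
  have hr0 : (0 : ℝ) < r := by exact_mod_cast hr
  have h2c : (0 : ℝ) < 2 ^ c := Real.rpow_pos_of_pos (by norm_num) c
  have hpos := env_pos (c := c) hα r
  rw [ht]
  by_cases h1 : t ≤ r
  · have h2 := env_ge (α := α) (c := c) ht1 h1
    have h3 : (((2 * r : ℕ) : ℝ) / t) ^ c = 2 ^ c * ((r : ℝ) / t) ^ c := by
      rw [← Real.mul_rpow (by norm_num) (by positivity)]
      congr 1
      push_cast
      ring
    rw [h3]
    calc α t * (2 ^ c * ((r : ℝ) / t) ^ c) = 2 ^ c * (α t * ((r : ℝ) / t) ^ c) := by ring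
      _ ≤ 2 ^ c * env α c r := mul_le_mul_of_nonneg_left h2 h2c.le
      _ = 2 ^ c * 1 * env α c r := by ring
      _ ≤ 2 ^ c * K * env α c r := by
        apply mul_le_mul_of_nonneg_right _ hpos.le
        exact mul_le_mul_of_nonneg_left hK h2c.le
  · push Not at h1
    have h2 := h r t hr h1.le ht2
    have h3 : (((2 * r : ℕ) : ℝ) / t) ^ c ≤ 2 ^ c := by
      apply Real.rpow_le_rpow (by positivity) _ hc
      rw [div_le_iff₀ ht0]
      have : (r : ℝ) ≤ t := by exact_mod_cast h1.le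
      push_cast
      linarith
    have h4 := env_self (α := α) (c := c) hr
    have h5 : 0 ≤ α t := by
      have := hα t ht1
      linarith
    calc α t * (((2 * r : ℕ) : ℝ) / t) ^ c ≤ (K * α r) * 2 ^ c :=
          mul_le_mul h2 h3 (Real.rpow_nonneg (by positivity) c) (by
            have := hα r hr
            nlinarith)
      _ ≤ (K * env α c r) * 2 ^ c := by
        apply mul_le_mul_of_nonneg_right _ h2c.le
        exact mul_le_mul_of_nonneg_left h4 (by linarith)
      _ = _ := by ring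

section
variable {π : ℕ → V d → ℝ} {C : ℝ}

lemma PiData.alpha_le (h : PiData d π C) (i : Fin d) {r : ℕ} (hr : 1 ≤ r) : alpha π C i r ≤ 2 * r := by
  refine Nat.sInf_le ⟨by omega, ?_⟩
  have hr0 : (0 : ℝ) < r := by exact_mod_cast hr
  have h1 : Hm π i r (1 / ((2 * r : ℕ) : ℝ)) ≤ ∑ y ∈ Lam 0 r, π r y * 2 := by
    unfold Hm
    refine Finset.sum_le_sum fun y hy => mul_le_mul_of_nonneg_left ?_ (h.nonneg r y)
    have h2 : (y i : ℝ) ≤ r := by
      have h3 := (mem_Lam'.1 hy i).2
      rw [Pi.zero_apply, zero_add] at h3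
      exact_mod_cast h3
    have h3 : (1 / ((2 * r : ℕ) : ℝ)) * (y i : ℝ) ≤ 1 / 2 := by
      push_cast
      rw [div_mul_eq_mul_div, one_mul, div_le_div_iff₀ (by positivity) (by norm_num)]
      linarith
    have h4 : Real.exp (1 / 2) ≤ 2 := by
      have h5 : Real.exp (1 / 2) ^ 2 ≤ 2 ^ 2 := by
        rw [← Real.exp_nat_mul]
        have := Real.exp_one_lt_d9
        norm_num at this ⊢
        linarith
      exact le_of_sq_le_sq h5 (by norm_num)
    exact (Real.exp_le_exp.2 h3).trans h4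
  rw [← Finset.sum_mul] at h1
  have h2 := h.G_le r hr
  linarith

/-- convexity of the exponential moment -/
lemma PiData.Hm_conv (h : PiData d π C) (i : Fin d) (r : ℕ) (θ : ℝ) {K : ℝ} (hK : 1 ≤ K) :
    Hm π i r (θ / K) ≤ Gm π r + Hm π i r θ / K := by
  have hK0 : 0 < K := by linarith
  have h1 : Hm π i r (θ / K) ≤ ∑ y ∈ Lam 0 r, (π r y + π r y * Real.exp (θ * y i) / K) := by
    unfold Hm
    refine Finset.sum_le_sum fun y _ => ?_
    have h2 := convexOn_exp.2 (Set.mem_univ (0 : ℝ)) (Set.mem_univ (θ * (y i : ℝ)))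
      (show 0 ≤ 1 - 1 / K by
        rw [sub_nonneg, div_le_one hK0]
        exact hK) (show 0 ≤ 1 / K by positivity) (by ring)
    simp only [smul_eq_mul, mul_zero, zero_add, Real.exp_zero, mul_one] at h2
    have h3 : θ / K * (y i : ℝ) = 1 / K * (θ * y i) := by ring
    rw [h3]
    have h4 : 0 ≤ 1 / K := by positivity
    calc π r y * Real.exp (1 / K * (θ * y i)) ≤ π r y * (1 - 1 / K + 1 / K * Real.exp (θ * y i)) :=
          mul_le_mul_of_nonneg_left h2 (h.nonneg r y)
      _ ≤ π r y * (1 + 1 / K * Real.exp (θ * y i)) := mul_le_mul_of_nonneg_left (by linarith) (h.nonneg r y)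
      _ = π r y + π r y * Real.exp (θ * y i) / K := by ring
  refine h1.trans (le_of_eq ?_)
  rw [Finset.sum_add_distrib, ← Finset.sum_div]
  rfl

theorem PiData.alpha_double (h : PiData d π C) (i : Fin d) : ∃ K : ℝ, 1 ≤ K ∧
    ∀ s t : ℕ, 1 ≤ s → s ≤ t → t ≤ 2 * s → (alpha π C i t : ℝ) ≤ K * alpha π C i s := by
  have hC := h.one_le
  have hC0 : 0 < C := by linarith
  obtain ⟨K, hK⟩ := exists_nat_gt (max (psi^[4] (2 * C) / C) 24)
  have hK24 : (24 : ℝ) < K := lt_of_le_of_lt (le_max_right _ _) hK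
  have hKC : psi^[4] (2 * C) ≤ C * K := by
    have h1 : psi^[4] (2 * C) / C < K := lt_of_le_of_lt (le_max_left _ _) hK
    rw [div_lt_iff₀ hC0] at h1
    linarith
  refine ⟨K, by linarith, fun s t hs hst ht => ?_⟩
  have hα := (h.alpha_mem i hs).1
  have hα0 : (0 : ℝ) < alpha π C i s := by exact_mod_cast hα
  have hα1 : (1 : ℝ) ≤ alpha π C i s := by exact_mod_cast hα
  by_cases h6 : 6 ≤ s
  · have hs0 : (0 : ℝ) < s := by exact_mod_cast hs
    have ht0 : (0 : ℝ) < t := by exact_mod_cast hs.trans hst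
    have h1 : Hm π i t (1 / (alpha π C i s : ℝ)) / t ≤ psi^[4] (2 * C) := by
      refine (h.Hm_iter i (1 / (alpha π C i s : ℝ)) 4 h6 hst (by omega)).trans ?_
      refine psi_iter_mono (div_nonneg (h.Hm_nonneg i s _) hs0.le) ?_ 4
      rw [div_le_iff₀ hs0]
      exact (h.alpha_mem i hs).2
    rw [div_le_iff₀ ht0] at h1
    have h2 : alpha π C i t ≤ K * alpha π C i s := by
      refine Nat.sInf_le ⟨?_, ?_⟩
      · have : 24 < K := by exact_mod_cast hK24
        nlinarith
      · have h3 := h.Hm_conv i t (1 / (alpha π C i s : ℝ)) (K := K) (by linarith)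
        have h4 : 1 / (((K * alpha π C i s : ℕ) : ℕ) : ℝ) = 1 / (alpha π C i s : ℝ) / K := by
          push_cast
          field_simp
        rw [h4]
        refine h3.trans ?_
        have h5 : Hm π i t (1 / (alpha π C i s : ℝ)) / K ≤ C * t := by
          rw [div_le_iff₀ (by linarith)]
          calc Hm π i t (1 / (alpha π C i s : ℝ)) ≤ psi^[4] (2 * C) * t := h1
            _ ≤ C * K * t := mul_le_mul_of_nonneg_right hKC ht0.le
            _ = C * t * K := by ring
        have h7 := h.Gm_le (hs.trans hst)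
        linarith
    exact_mod_cast h2
  · have h1 := h.alpha_le i (hs.trans hst)
    have h2 : (alpha π C i t : ℝ) ≤ 24 := by
      have : alpha π C i t ≤ 24 := by omega
      exact_mod_cast this
    nlinarith

theorem PiData.scale_double (h : PiData d π C) (i : Fin d) {c : ℝ} (hc : 0 ≤ c) : ∃ K : ℝ, 0 < K ∧
    ∀ r : ℕ, 1 ≤ r → scale π C i c (2 * r) ≤ K * scale π C i c r := by
  obtain ⟨K, hK, h1⟩ := h.alpha_double i
  have h2c : (0 : ℝ) < 2 ^ c := Real.rpow_pos_of_pos (by norm_num) c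
  refine ⟨2 ^ c * K, by positivity, fun r hr => ?_⟩
  exact env_double hc hK (h.alpha_one_le i) h1 hr

end

end Pool.Agent.Lib.MP_06caae_pr
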