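import Pool.Agent.Lib.MP_06caae_pr.B.LowExt
import Pool.Agent.Lib.MP_06caae_pr.B.Doub

/-!
# The extrinsic scale for the incipient infinite cluster

`scale_main`: from the growth lemmas and the reach lemma for the incipient infinite cluster to the two
properties of the extrinsic scale `a` which the assembly uses (`ext`, `far`), and `a → ∞`.
-/

open Finset SimpleGraph MeasureTheory
open Pool.Agent.Lib.MP_566bac_pr.Zd

namespace Pool.Agent.Lib.MP_06caae_pr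

variable {d : ℕ} {p : ℝ}

lemma TT_eq (d : ℕ) (p : ℝ) (r : ℕ) (s : ℝ) : TT d p r s = Tm (d := d) (ppi p) r s := by
  unfold TT Tm
  congr 1

lemma Growth2.mono {π : ℕ → V d → ℝ} {c₀ K₀ K : ℝ} (h : Growth2 π c₀ K₀) (hK : K₀ ≤ K) : Growth2 π c₀ K := by
  obtain ⟨s₁, hs₁⟩ := h
  exact ⟨s₁, fun r s h1 h2 h3 R hR => hs₁ r s h1 h2 h3 R
    ((mul_le_mul_of_nonneg_right hK (Nat.cast_nonneg r)).trans hR)⟩

theorem scale_main (hp : 0 ≤ p) (hp1 : p ≤ 1) {C₁ C₂ : ℝ} (h : PiData d (ppi p) C₁) (hC₂ : 0 ≤ C₂)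
    (harm : ∀ (E : Finset (Ed d)) (x : V d) (r : ℕ), 1 ≤ r → PE p E {S | (sph S x r).Nonempty} ≤ C₂ / r)
    {c₀ K₁ K₀ : ℝ}
    (g1 : ∀ η : ℝ, 0 < η → η ≤ 1 → ∃ s₀ : ℝ, ∀ (r : ℕ) (s : ℝ), s₀ ≤ r → s₀ ≤ s → η * r ≤ TT d p r s →
      ∀ R : ℕ, K₁ / η * r ≤ R → c₀ * R ≤ TT d p R (s / 3))
    (g2 : ∃ s₁ : ℝ, ∀ (r : ℕ) (s : ℝ), s₁ ≤ r → s₁ ≤ s → c₀ * r ≤ TT d p r s →
      ∀ R : ℕ, K₀ * r ≤ R → c₀ * R ≤ TT d p R (2 * s))
    [MeasurableSpace (Set (Ed d))] {ν : Measure (Set (Ed d))} (hν : Transfer d p ν)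
    (hreach : ∃ c₃ : ℝ, 0 < c₃ ∧ ∃ s₂ : ℝ, ∀ (r : ℕ) (s : ℝ), s₂ ≤ r → s₂ ≤ s → c₀ * r ≤ TT d p r s →
      c₃ ≤ ν.real {S | s / 3 ≤ (rad S (0 : V d) (3 * r) : ℝ)}) :
    ∃ a : ℕ → ℝ, (∀ R, 0 < a R) ∧ Monotone a ∧ Filter.Tendsto a Filter.atTop Filter.atTop ∧
      (∃ K : ℝ, 0 < K ∧ ∀ r : ℕ, 1 ≤ r → a (2 * r) ≤ K * a r) ∧
      (∀ (lam : ℕ), 1 ≤ lam → ∀ η > (0 : ℝ), ∀ ε > (0 : ℝ), ∃ q : ℕ, 1 ≤ q ∧ ∃ R0 : ℕ, ∀ R ≥ R0,
        ν.real {S | ∃ z ∈ ball S (0 : V d) (lam * R), η * a R < (rad S z (R / q) : ℝ)} ≤ ε) ∧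
      (∃ C : ℕ, ∃ c > (0 : ℝ), ∃ p > (0 : ℝ), ∃ R0 : ℕ, ∀ R ≥ R0,
        p ≤ ν.real {S | c * a R ≤ (rad S (0 : V d) (C * R) : ℝ)}) := by
  set i : Fin d := ⟨0, h.dim⟩ with hi
  obtain ⟨K, hK⟩ := exists_nat_gt (max K₀ 2)
  have hK2 : 2 ≤ K := by
    have : (2 : ℝ) < K := lt_of_le_of_lt (le_max_right _ _) hK
    have : 2 < K := by exact_mod_cast this
    omega
  have hKK : K₀ ≤ K := (le_max_left _ _).trans hK.le
  obtain ⟨c, hc, _, hcd, hcK⟩ := exists_exponent h.dim hK2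
  have g1' : Growth1 (d := d) (ppi p) c₀ K₁ := by
    intro η h1 h2
    obtain ⟨s₀, hs₀⟩ := g1 η h1 h2
    refine ⟨s₀, fun r s h3 h4 h5 R hR => ?_⟩
    rw [← TT_eq]
    rw [← TT_eq] at h5
    exact hs₀ r s h3 h4 h5 R hR
  have g2' : Growth2 (d := d) (ppi p) c₀ K := by
    refine Growth2.mono (K₀ := K₀) ?_ hKK
    obtain ⟨s₁, hs₁⟩ := g2
    refine ⟨s₁, fun r s h3 h4 h5 R hR => ?_⟩
    rw [← TT_eq]
    rw [← TT_eq] at h5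
    exact hs₁ r s h3 h4 h5 R hR
  obtain ⟨Λ, r₀, hΛ, hup⟩ := h.up i hc hcd hK2 hcK g1' g2'
  have hα := h.alpha_one_le i
  have htend : Filter.Tendsto (scale (ppi p) C₁ i c) Filter.atTop Filter.atTop := env_tendsto hc hα
  refine ⟨scale (ppi p) C₁ i c, fun R => env_pos hα R, fun s r hsr => env_mono hc.le hα hsr, htend,
    h.scale_double i hc.le, ?_, ?_⟩
  · intro lam hlam η hη ε hε
    exact ext_nu hp hp1 h hC₂ harm i hc hν lam hlam η hη ε hε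
  · obtain ⟨c₃, hc₃, s₂, hs₂⟩ := hreach
    obtain ⟨r₁, hr₁⟩ := Filter.eventually_atTop.1 (htend.eventually_ge_atTop (24 * s₂))
    obtain ⟨r₂, hr₂⟩ := exists_nat_ge s₂
    refine ⟨3 * Λ, 1 / 72, by norm_num, c₃, hc₃, max r₀ (max r₁ r₂), fun R hR => ?_⟩
    have h1 := hup R ((le_max_left _ _).trans hR)
    have h2 := hr₁ R (((le_max_left _ _).trans (le_max_right _ _)).trans hR)
    have h3 : r₂ ≤ R := ((le_max_right _ _).trans (le_max_right _ _)).trans hR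
    rw [← TT_eq] at h1
    have h4 : s₂ ≤ ((Λ * R : ℕ) : ℝ) := by
      have h5 : r₂ ≤ Λ * R := h3.trans (Nat.le_mul_of_pos_left R (by omega))
      exact hr₂.trans (by exact_mod_cast h5)
    have h5 := hs₂ (Λ * R) (scale (ppi p) C₁ i c R / 24) h4 (by linarith) h1
    have h6 : {S : Set (Ed d) | scale (ppi p) C₁ i c R / 24 / 3 ≤ (rad S (0 : V d) (3 * (Λ * R)) : ℝ)} =
        {S | 1 / 72 * scale (ppi p) C₁ i c R ≤ (rad S (0 : V d) (3 * Λ * R) : ℝ)} := by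
      ext S
      simp only [Set.mem_ofPred_eq]
      rw [mul_assoc 3 Λ R]
      have h7 : scale (ppi p) C₁ i c R / 24 / 3 = 1 / 72 * scale (ppi p) C₁ i c R := by ring
      rw [h7]
    rw [h6] at h5
    exact h5

end Pool.Agent.Lib.MP_06caae_pr
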