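import Pool.Agent.Lib.MP_06caae_pr.B.Exp

/-!
# The scale attached to the exponential moments
-/

open Finset

namespace Pool.Agent.Lib.MP_06caae_pr

open Pool.Agent.Lib.MP_566bac_pr.Zd

variable {d : ℕ}

section
variable {π : ℕ → V d → ℝ} {C : ℝ}

/-- one splitting step -/
def psi (h : ℝ) : ℝ := h + 2 * h ^ 2

lemma psi_ge {h : ℝ} : h ≤ psi h := by
  unfold psi
  nlinarith [sq_nonneg h]

lemma psi_mono {h h' : ℝ} (h0 : 0 ≤ h) (h1 : h ≤ h') : psi h ≤ psi h' := by
  unfold psi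
  nlinarith

lemma psi_iter_ge {h : ℝ} (k : ℕ) : h ≤ psi^[k] h := by
  induction k with
  | zero => exact le_rfl
  | succ k ih =>
    rw [Function.iterate_succ_apply']
    exact ih.trans psi_ge

lemma psi_iter_mono {h h' : ℝ} (h0 : 0 ≤ h) (h1 : h ≤ h') (k : ℕ) : psi^[k] h ≤ psi^[k] h' := by
  induction k with
  | zero => exact h1
  | succ k ih =>
    rw [Function.iterate_succ_apply', Function.iterate_succ_apply']
    exact psi_mono (h0.trans (psi_iter_ge k)) ih

lemma PiData.Hm_psi (h : PiData d π C) (i : Fin d) {s s' : ℕ} (hs : 1 ≤ s) (h1 : s ≤ s') (h2 : 2 * s' ≤ 3 * s)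
    (θ : ℝ) : Hm π i s' θ / s' ≤ psi (Hm π i s θ / s) := by
  have hs0 : (0 : ℝ) < s := by exact_mod_cast hs
  have h3 := h.Hm_split i hs h1 h2 θ
  have h4 : Hm π i s' θ / s' ≤ Hm π i s' θ / s := by
    apply div_le_div_of_nonneg_left (h.Hm_nonneg i s' θ) hs0
    exact_mod_cast h1
  refine h4.trans ?_
  have h5 : psi (Hm π i s θ / s) = (Hm π i s θ + (2 / s) * (Hm π i s θ) ^ 2) / s := by
    unfold psi
    field_simp
  rw [h5]
  exact div_le_div_of_nonneg_right h3 hs0.le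

/-- iterated splitting -/
lemma PiData.Hm_iter (h : PiData d π C) (i : Fin d) (θ : ℝ) (k : ℕ) : ∀ {s s' : ℕ}, 6 ≤ s → s ≤ s' →
    s' * 4 ^ k ≤ s * 5 ^ k → Hm π i s' θ / s' ≤ psi^[k] (Hm π i s θ / s) := by
  induction k with
  | zero =>
    intro s s' hs h1 h2
    rw [pow_zero, pow_zero, mul_one, mul_one] at h2
    have h3 : s' = s := le_antisymm h2 h1
    subst h3
    exact le_rfl
  | succ k ih =>
    intro s s' hs h1 h2
    rw [Function.iterate_succ_apply']
    have h0 : 0 ≤ Hm π i s θ / s := div_nonneg (h.Hm_nonneg i s θ) (Nat.cast_nonneg s)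
    by_cases h3 : 2 * s' ≤ 3 * s
    · exact (h.Hm_psi i (by omega) h1 h3 θ).trans (psi_mono h0 (psi_iter_ge k))
    · push Not at h3
      have h4 : 5 * (4 * s' / 5) ≤ 4 * s' := Nat.mul_div_le _ _
      have h5 : 4 * s' < 5 * (4 * s' / 5) + 5 := by omega
      have h6 : s ≤ 4 * s' / 5 := by omega
      have h7 : (4 * s' / 5) * 4 ^ k ≤ s * 5 ^ k := by
        have h8 : 5 * ((4 * s' / 5) * 4 ^ k) ≤ 5 * (s * 5 ^ k) := by
          calc 5 * ((4 * s' / 5) * 4 ^ k) = (5 * (4 * s' / 5)) * 4 ^ k := by ring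
            _ ≤ 4 * s' * 4 ^ k := Nat.mul_le_mul_right _ h4
            _ = s' * 4 ^ (k + 1) := by ring
            _ ≤ s * 5 ^ (k + 1) := h2
            _ = 5 * (s * 5 ^ k) := by ring
        exact Nat.le_of_mul_le_mul_left h8 (by norm_num)
      have h8 := ih hs h6 h7
      refine (h.Hm_psi i (s := 4 * s' / 5) (by omega) (by omega) (by omega) θ).trans ?_
      exact psi_mono (div_nonneg (h.Hm_nonneg i _ θ) (Nat.cast_nonneg _)) h8

/-- the scale: the least `a ≥ 1` with `H_r (1 / a) ≤ 2 C r` -/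
noncomputable def alpha (π : ℕ → V d → ℝ) (C : ℝ) (i : Fin d) (r : ℕ) : ℕ :=
  sInf {a : ℕ | 1 ≤ a ∧ Hm π i r (1 / (a : ℝ)) ≤ 2 * C * r}

lemma PiData.alpha_ne (h : PiData d π C) (i : Fin d) {r : ℕ} (hr : 1 ≤ r) :
    {a : ℕ | 1 ≤ a ∧ Hm π i r (1 / (a : ℝ)) ≤ 2 * C * r}.Nonempty := by
  refine ⟨2 * r, by omega, ?_⟩
  have hr0 : (0 : ℝ) < r := by exact_mod_cast hr
  have h1 : Hm π i r (1 / ((2 * r : ℕ) : ℝ)) ≤ ∑ y ∈ Lam 0 r, π r y * 2 := by
    unfold Hm
    refine Finset.sum_le_sum fun y hy => mul_le_mul_of_nonneg_left ?_ (h.nonneg r y)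
    have h2 : (y i : ℝ) ≤ r := by
      have h3 := (mem_Lam'.1 hy i).2
      rw [Pi.zero_apply, zero_add] at h3
      exact_mod_cast h3
    have h3 : (1 / ((2 * r : ℕ) : ℝ)) * (y i : ℝ) ≤ 1 / 2 := by
      push_cast
      rw [div_mul_eq_mul_div, one_mul, div_le_div_iff₀ (by positivity) (by norm_num)]
      linarith
    have h4 : Real.exp (1 / 2) ≤ 2 := by
      have h5 : Real.exp (1 / 2) ^ 2 ≤ 2 ^ 2 := by
        rw [← Real.exp_nat_mul]
        have := Real.exp_one_lt_d9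
        norm_num at this ⊢
        linarith
      exact le_of_sq_le_sq h5 (by norm_num)
    exact (Real.exp_le_exp.2 h3).trans h4
  rw [← Finset.sum_mul] at h1
  have h2 := h.G_le r hr
  linarith

lemma PiData.alpha_mem (h : PiData d π C) (i : Fin d) {r : ℕ} (hr : 1 ≤ r) :
    1 ≤ alpha π C i r ∧ Hm π i r (1 / (alpha π C i r : ℝ)) ≤ 2 * C * r := Nat.sInf_mem (h.alpha_ne i hr)

lemma Hm_gt (i : Fin d) {r a : ℕ} (ha : 1 ≤ a) (h1 : a < alpha π C i r) :
    2 * C * r < Hm π i r (1 / (a : ℝ)) := by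
  by_contra h2
  push Not at h2
  exact absurd (Nat.sInf_le (show a ∈ {a : ℕ | 1 ≤ a ∧ Hm π i r (1 / (a : ℝ)) ≤ 2 * C * r} from ⟨ha, h2⟩))
    (not_le.2 h1)

lemma PiData.Hm_le (h : PiData d π C) (i : Fin d) {r : ℕ} (hr : 1 ≤ r) {a : ℝ} (ha : (alpha π C i r : ℝ) ≤ a) :
    Hm π i r (1 / a) ≤ 2 * C * r := by
  obtain ⟨h1, h2⟩ := h.alpha_mem i hr
  have h3 : (0 : ℝ) < alpha π C i r := by exact_mod_cast h1
  refine (h.Hm_mono i r (one_div_nonneg.2 (h3.le.trans ha)) ?_).trans h2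
  exact one_div_le_one_div_of_le h3 ha

/-- the tail of the displacement, in the mean -/
lemma PiData.Tm_le (h : PiData d π C) (i : Fin d) {r : ℕ} (hr : 1 ≤ r) {a : ℝ} (ha : (alpha π C i r : ℝ) ≤ a)
    (b : ℝ) : Tm π r b ≤ 4 * d * C * r * Real.exp (-(b / a)) := by
  obtain ⟨h1, _⟩ := h.alpha_mem i hr
  have ha0 : 0 < a := lt_of_lt_of_le (by exact_mod_cast h1) ha
  set θ := 1 / a with hθ
  have hθ0 : 0 < θ := by positivity
  have key : Tm π r b ≤ ∑ y ∈ Lam 0 r, π r y * ∑ j, (Real.exp (θ * y j) + Real.exp (-(θ * y j))) *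
      Real.exp (-(b / a)) := by
    unfold Tm
    have h2 : ∑ y ∈ (Lam 0 r).filter (fun y => b ≤ (dst 0 y : ℝ)), π r y ≤
        ∑ y ∈ (Lam 0 r).filter (fun y => b ≤ (dst 0 y : ℝ)), π r y * ∑ j, (Real.exp (θ * y j) +
          Real.exp (-(θ * y j))) * Real.exp (-(b / a)) := by
      refine Finset.sum_le_sum fun y hy => ?_
      have h3 := (Finset.mem_filter.1 hy).2
      obtain ⟨j, hj⟩ := exists_dst h.dim 0 y
      have h4 : (b : ℝ) ≤ |(y j : ℝ)| := by
        refine h3.trans ?_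
        rw [Pi.zero_apply, zero_sub, abs_neg] at hj
        have h5 : ((dst 0 y : ℤ) : ℝ) = ((|y j| : ℤ) : ℝ) := by rw [hj]
        push_cast at h5
        exact le_of_eq h5
      have h5 : 1 ≤ (Real.exp (θ * y j) + Real.exp (-(θ * y j))) * Real.exp (-(b / a)) := by
        have h6 : b / a ≤ θ * |(y j : ℝ)| := by
          rw [hθ, div_mul_eq_mul_div, one_mul]
          exact div_le_div_of_nonneg_right h4 ha0.le
        have h7 : Real.exp (θ * |(y j : ℝ)|) ≤ Real.exp (θ * y j) + Real.exp (-(θ * y j)) := by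
          rcases abs_cases (y j : ℝ) with ⟨h8, _⟩ | ⟨h8, _⟩
          · rw [h8]
            have := Real.exp_pos (-(θ * (y j : ℝ)))
            linarith
          · rw [h8, mul_neg]
            have := Real.exp_pos (θ * (y j : ℝ))
            linarith
        calc (1 : ℝ) = Real.exp (b / a) * Real.exp (-(b / a)) := by rw [← Real.exp_add, add_neg_cancel, Real.exp_zero]
          _ ≤ Real.exp (θ * |(y j : ℝ)|) * Real.exp (-(b / a)) :=
            mul_le_mul_of_nonneg_right (Real.exp_le_exp.2 h6) (Real.exp_pos _).le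
          _ ≤ _ := mul_le_mul_of_nonneg_right h7 (Real.exp_pos _).le
      have h6 : (Real.exp (θ * y j) + Real.exp (-(θ * y j))) * Real.exp (-(b / a)) ≤
          ∑ j, (Real.exp (θ * y j) + Real.exp (-(θ * y j))) * Real.exp (-(b / a)) :=
        Finset.single_le_sum (f := fun j => (Real.exp (θ * y j) + Real.exp (-(θ * y j))) * Real.exp (-(b / a)))
          (fun j _ => by positivity) (Finset.mem_univ j)
      calc π r y = π r y * 1 := (mul_one _).symm
        _ ≤ _ := mul_le_mul_of_nonneg_left (h5.trans h6) (h.nonneg r y)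
    refine h2.trans (Finset.sum_le_sum_of_subset_of_nonneg (Finset.filter_subset _ _) fun y _ _ => ?_)
    exact mul_nonneg (h.nonneg r y) (Finset.sum_nonneg fun j _ => by positivity)
  have h2 : ∑ y ∈ Lam 0 r, π r y * ∑ j, (Real.exp (θ * y j) + Real.exp (-(θ * y j))) * Real.exp (-(b / a)) =
      ∑ j : Fin d, 2 * Hm π j r θ * Real.exp (-(b / a)) := by
    simp_rw [Finset.mul_sum]
    rw [Finset.sum_comm]
    refine Finset.sum_congr rfl fun j _ => ?_
    rw [h.Hm_cosh, Finset.mul_sum, Finset.sum_mul]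
    refine Finset.sum_congr rfl fun y _ => ?_
    rw [Real.cosh_eq]
    ring
  have h3 : ∑ j : Fin d, 2 * Hm π j r θ * Real.exp (-(b / a)) ≤ ∑ _j : Fin d, 2 * (2 * C * r) * Real.exp (-(b / a)) := by
    refine Finset.sum_le_sum fun j _ => mul_le_mul_of_nonneg_right ?_ (Real.exp_pos _).le
    rw [h.Hm_coord j i]
    have := h.Hm_le i hr ha
    linarith
  rw [Finset.sum_const, Finset.card_univ, Fintype.card_fin, nsmul_eq_mul] at h3
  refine (key.trans (h2.le.trans h3)).trans (le_of_eq ?_)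
  ring

/-- polynomial lower bound for the scale -/
lemma PiData.alpha_ge (h : PiData d π C) (i : Fin d) : ∃ K : ℝ, 0 < K ∧ ∀ r : ℕ, 1 ≤ r →
    (r : ℝ) ≤ K * (alpha π C i r : ℝ) ^ d := by
  have hC := h.one_le
  have hd : (1 : ℝ) ≤ d := by exact_mod_cast h.dim
  obtain ⟨L, hL⟩ := exists_nat_gt (8 * d * C)
  have hL1 : (1 : ℝ) ≤ L := by nlinarith
  refine ⟨2 * (3 * L) ^ d, by positivity, fun r hr => ?_⟩
  obtain ⟨h1, _⟩ := h.alpha_mem i hr
  set a := alpha π C i r with ha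
  have ha1 : (1 : ℝ) ≤ a := by exact_mod_cast h1
  have h2 := h.Tm_le i hr (le_refl (a : ℝ)) (L * a)
  have h3 : Real.exp (-(L * a / a)) ≤ 1 / L := by
    rw [mul_div_assoc, div_self (by linarith), mul_one, Real.exp_neg, ← one_div]
    apply one_div_le_one_div_of_le (by linarith)
    have := Real.add_one_le_exp (L : ℝ)
    linarith
  have h4 : 4 * d * C * r * Real.exp (-(L * a / a)) ≤ r / 2 := by
    have hr0 : (0 : ℝ) ≤ r := Nat.cast_nonneg r
    calc 4 * d * C * r * Real.exp (-(L * a / a)) ≤ 4 * d * C * r * (1 / L) :=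
          mul_le_mul_of_nonneg_left h3 (by positivity)
      _ = (8 * d * C) * (r / 2 / L) := by ring
      _ ≤ L * (r / 2 / L) := mul_le_mul_of_nonneg_right hL.le (by positivity)
      _ = r / 2 := by field_simp
  have h5 : ∑ y ∈ Lam 0 r, π r y ≤ Tm π r (L * a) + (2 * (L * a) + 1) ^ d := by
    unfold Tm
    rw [← Finset.sum_filter_add_sum_filter_not (Lam 0 r) (fun y => (L : ℝ) * a ≤ (dst 0 y : ℝ))]
    refine add_le_add le_rfl ?_
    have h6 : ∑ y ∈ (Lam 0 r).filter (fun y => ¬ (L : ℝ) * a ≤ (dst 0 y : ℝ)), π r y ≤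
        ∑ _y ∈ Lam (0 : V d) (L * a), (1 : ℝ) := by
      refine (Finset.sum_le_sum fun y _ => h.le_one r y).trans ?_
      refine Finset.sum_le_sum_of_subset_of_nonneg ?_ fun _ _ _ => zero_le_one
      intro y hy
      have h7 := (Finset.mem_filter.1 hy).2
      push Not at h7
      rw [mem_Lam, dst_comm]
      have h8 : (dst 0 y : ℝ) ≤ ((L * a : ℕ) : ℝ) := by
        push_cast
        exact h7.le
      exact_mod_cast h8
    refine h6.trans ?_
    rw [Finset.sum_const, card_Lam, nsmul_eq_mul, mul_one]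
    push_cast
    exact le_rfl
  have h6 := h.G_ge r
  have h7 : ((2 * ((L : ℝ) * a) + 1)) ^ d ≤ (3 * L) ^ d * (a : ℝ) ^ d := by
    rw [← mul_pow]
    apply pow_le_pow_left₀ (by positivity)
    nlinarith
  nlinarith

end

end Pool.Agent.Lib.MP_06caae_pr
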