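import Mathlib

/-!
# The recursion for displaced arms
-/

namespace Pool.Agent.Lib.MP_06caae_pr

/-- the recursion `Q s a ≤ (D / s) exp (- b / A s) + D Q (s / 2) (a - b)` gives polynomial decay of every order -/
theorem arm_bound {Q : ℕ → ℝ → ℝ} {A : ℕ → ℝ} {c D : ℝ} (hc : 0 < c) (hD : 1 ≤ D) (hQ1 : ∀ s a, Q s a ≤ 1)
    (hQ0 : ∀ a, 1 < a → Q 1 a ≤ 0) (hA1 : ∀ s, 1 ≤ A s)
    (hA : ∀ t s : ℕ, 1 ≤ t → t ≤ s → A t ≤ A s * ((t : ℝ) / s) ^ c)
    (hrec : ∀ s : ℕ, 2 ≤ s → ∀ a b : ℝ, 0 ≤ b → b ≤ a →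
      Q s a ≤ D / s * Real.exp (-(b / A s)) + D * Q ((s + 1) / 2) (a - b)) :
    ∃ N₀ : ℕ, ∀ N : ℕ, N₀ ≤ N → ∃ K : ℝ, 0 < K ∧ ∀ s : ℕ, 1 ≤ s → ∀ a : ℝ, 0 < a →
      Q s a ≤ K / s * (A s / a) ^ N := by
  set q : ℝ := (2 / 3 : ℝ) ^ (c / 2) with hq
  have hq0 : 0 < q := Real.rpow_pos_of_pos (by norm_num) _
  have hq1 : q < 1 := Real.rpow_lt_one (by norm_num) (by norm_num) (by positivity)
  have hqq : (2 / 3 : ℝ) ^ c = q * q := by
    rw [hq, ← Real.rpow_add (by norm_num)]
    congr 1
    ring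
  obtain ⟨N₀, hN₀⟩ := exists_pow_lt_of_lt_one (show (0 : ℝ) < 1 / (4 * D) by positivity) hq1
  refine ⟨N₀, fun N hN => ?_⟩
  have hqN : 4 * D * q ^ N ≤ 1 := by
    have h1 : q ^ N ≤ q ^ N₀ := pow_le_pow_of_le_one hq0.le hq1.le hN
    have h2 : q ^ N ≤ 1 / (4 * D) := h1.trans hN₀.le
    rw [le_div_iff₀ (by positivity)] at h2
    linarith
  set δ := 1 - q with hδ
  have hδ0 : 0 < δ := by linarith
  set K := 1 + 2 * D * (N.factorial : ℝ) / δ ^ N with hK
  have hf0 : (0 : ℝ) < N.factorial := by exact_mod_cast N.factorial_pos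
  have hK1 : 1 ≤ K := by
    have : 0 ≤ 2 * D * (N.factorial : ℝ) / δ ^ N := by positivity
    linarith
  refine ⟨K, by linarith, ?_⟩
  intro s
  induction s using Nat.strong_induction_on with
  | _ s ih =>
  intro hs a ha
  have hs0 : (0 : ℝ) < s := by exact_mod_cast hs
  have hAs := hA1 s
  have hAs0 : 0 < A s := by linarith
  by_cases hs2 : 2 ≤ s
  · have h1 := hrec s hs2 a (δ * a) (by positivity) (by nlinarith)
    have hqa : a - δ * a = q * a := by
      rw [hδ]
      ring
    rw [hqa] at h1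
    -- the exponential term
    have h2 : D / s * Real.exp (-(δ * a / A s)) ≤ 1 / 2 * (K / s * (A s / a) ^ N) := by
      have h3 := Real.pow_div_factorial_le_exp (δ * a / A s) (by positivity) N
      have h4 : Real.exp (-(δ * a / A s)) ≤ N.factorial / δ ^ N * (A s / a) ^ N := by
        rw [Real.exp_neg]
        have h5 : 0 < (δ * a / A s) ^ N / N.factorial := by positivity
        have h6 := inv_anti₀ h5 h3
        refine h6.trans (le_of_eq ?_)
        rw [inv_div, div_pow, div_pow, mul_pow]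
        field_simp
      calc D / s * Real.exp (-(δ * a / A s)) ≤ D / s * (N.factorial / δ ^ N * (A s / a) ^ N) :=
            mul_le_mul_of_nonneg_left h4 (by positivity)
        _ = 1 / 2 * ((2 * D * N.factorial / δ ^ N) / s * (A s / a) ^ N) := by ring
        _ ≤ 1 / 2 * (K / s * (A s / a) ^ N) := by
          apply mul_le_mul_of_nonneg_left _ (by norm_num)
          apply mul_le_mul_of_nonneg_right _ (by positivity)
          apply div_le_div_of_nonneg_right _ hs0.le
          linarith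
    -- the recursive term
    set t := (s + 1) / 2 with ht
    have ht1 : 1 ≤ t := by omega
    have hts : t < s := by omega
    have ht2 : s ≤ 2 * t := by omega
    have ht3 : 3 * t ≤ 2 * s := by omega
    have ht0 : (0 : ℝ) < t := by exact_mod_cast ht1
    have h3 := ih t hts ht1 (q * a) (by positivity)
    have h4 : D * Q t (q * a) ≤ 1 / 2 * (K / s * (A s / a) ^ N) := by
      have h5 : A t / (q * a) ≤ q * (A s / a) := by
        rw [div_le_iff₀ (by positivity)]
        have h6 := hA t s ht1 hts.le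
        have h7 : ((t : ℝ) / s) ^ c ≤ q * q := by
          rw [← hqq]
          apply Real.rpow_le_rpow (by positivity) _ hc.le
          rw [div_le_div_iff₀ hs0 (by norm_num)]
          have h8 : ((3 * t : ℕ) : ℝ) ≤ ((2 * s : ℕ) : ℝ) := by exact_mod_cast ht3
          push_cast at h8
          linarith
        calc A t ≤ A s * ((t : ℝ) / s) ^ c := h6
          _ ≤ A s * (q * q) := mul_le_mul_of_nonneg_left h7 hAs0.le
          _ = q * (A s / a) * (q * a) := by field_simp
      have h6 : (A t / (q * a)) ^ N ≤ q ^ N * (A s / a) ^ N := by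
        rw [← mul_pow]
        have hAt := hA1 t
        exact pow_le_pow_left₀ (by positivity) h5 N
      have h7 : K / t ≤ 2 * (K / s) := by
        rw [mul_div_assoc', div_le_div_iff₀ ht0 hs0]
        have h8 : ((s : ℕ) : ℝ) ≤ ((2 * t : ℕ) : ℝ) := by exact_mod_cast ht2
        push_cast at h8
        nlinarith
      calc D * Q t (q * a) ≤ D * (K / t * (A t / (q * a)) ^ N) := mul_le_mul_of_nonneg_left h3 (by linarith)
        _ ≤ D * (2 * (K / s) * (q ^ N * (A s / a) ^ N)) := by
          apply mul_le_mul_of_nonneg_left _ (by linarith)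
          have hAt := hA1 t
          exact mul_le_mul h7 h6 (by positivity) (by positivity)
        _ = 1 / 2 * (4 * D * q ^ N) * (K / s * (A s / a) ^ N) := by ring
        _ ≤ 1 / 2 * 1 * (K / s * (A s / a) ^ N) := by
          apply mul_le_mul_of_nonneg_right _ (by positivity)
          apply mul_le_mul_of_nonneg_left hqN (by norm_num)
        _ = 1 / 2 * (K / s * (A s / a) ^ N) := by ring
    linarith
  · have hs1 : s = 1 := by omega
    subst hs1
    have h5 : (0 : ℝ) ≤ K / (1 : ℕ) * (A 1 / a) ^ N := by positivity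
    by_cases ha1 : 1 < a
    · exact (hQ0 a ha1).trans h5
    · push Not at ha1
      refine (hQ1 1 a).trans ?_
      have h6 : 1 ≤ A 1 / a := by
        rw [le_div_iff₀ ha]
        linarith
      have h7 : 1 ≤ (A 1 / a) ^ N := one_le_pow₀ h6
      rw [Nat.cast_one, div_one]
      nlinarith

end Pool.Agent.Lib.MP_06caae_pr
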