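import Pool.Agent.Lib.MP_06caae_pr.B.Split
import Pool.Agent.Lib.MP_06caae_pr.B.Arm

/-!
# Displacement of intrinsic balls
-/

open Finset SimpleGraph
open Pool.Agent.Lib.MP_566bac_pr.Zd

namespace Pool.Agent.Lib.MP_06caae_pr

variable {d : ℕ} {p : ℝ}

/-- the ball of radius `s` around `x` contains a vertex at distance at least `a` from `x` -/
def DispE (x : V d) (s : ℕ) (a : ℝ) : Set (Set (Ed d)) := {S | ∃ y, Rch S x s y ∧ a ≤ (dst x y : ℝ)}

/-- the supremum over all volumes of the probability of a displacement -/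
noncomputable def qs (d : ℕ) (p : ℝ) (s : ℕ) (a : ℝ) : ℝ :=
  ⨆ z : Finset (Ed d) × V d, PE p z.1 (DispE z.2 s a)

lemma qs_bdd (hp : 0 ≤ p) (hp1 : p ≤ 1) (s : ℕ) (a : ℝ) :
    BddAbove (Set.range fun z : Finset (Ed d) × V d => PE p z.1 (DispE z.2 s a)) := by
  refine ⟨1, ?_⟩
  rintro _ ⟨z, rfl⟩
  exact PE_le_one hp hp1 _ _

lemma PE_le_qs (hp : 0 ≤ p) (hp1 : p ≤ 1) (E : Finset (Ed d)) (x : V d) (s : ℕ) (a : ℝ) :
    PE p E (DispE x s a) ≤ qs d p s a :=
  le_ciSup (qs_bdd hp hp1 s a) (E, x)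

lemma qs_le {s : ℕ} {a c : ℝ} (h : ∀ (E : Finset (Ed d)) (x : V d), PE p E (DispE x s a) ≤ c) : qs d p s a ≤ c :=
  ciSup_le fun z => h z.1 z.2

lemma qs_nonneg (hp : 0 ≤ p) (hp1 : p ≤ 1) (s : ℕ) (a : ℝ) : 0 ≤ qs d p s a :=
  (PE_nonneg hp hp1 _ _).trans (PE_le_qs hp hp1 ∅ 0 s a)

lemma qs_anti (hp : 0 ≤ p) (hp1 : p ≤ 1) (s : ℕ) {a b : ℝ} (hab : a ≤ b) : qs d p s b ≤ qs d p s a := by
  refine qs_le fun E x => (PE_mono hp hp1 E ?_).trans (PE_le_qs hp hp1 E x s a)
  rintro S ⟨y, hy, h⟩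
  exact ⟨y, hy, hab.trans h⟩

lemma dst_sub (x u : V d) : dst 0 (u - x) = dst x u := by
  unfold dst
  congr 1
  funext i
  have h : (0 : V d) i - (u - x) i = x i - u i := by
    simp
  rw [h]

lemma sum_TT (hp : 0 ≤ p) (hp1 : p ≤ 1) (x : V d) (s : ℕ) (b : ℝ) :
    ∑ u ∈ (Lam x s).filter (fun u => b ≤ (dst x u : ℝ)), ppi p s (u - x) ≤ Tm (d := d) (ppi p) s b := by
  classical
  unfold Tm
  have h1 : ∑ u ∈ (Lam x s).filter (fun u => b ≤ (dst x u : ℝ)), ppi p s (u - x) =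
      ∑ z ∈ ((Lam x s).filter (fun u => b ≤ (dst x u : ℝ))).image (fun u => u - x), ppi p s z := by
    rw [sum_image]
    intro a _ c _ hac
    exact sub_left_injective hac
  rw [h1]
  refine sum_le_sum_of_subset_of_nonneg ?_ fun z _ _ => ppi_nonneg hp hp1 s z
  intro z hz
  rw [mem_image] at hz
  obtain ⟨u, hu, rfl⟩ := hz
  rw [mem_filter, mem_Lam] at hu
  rw [mem_filter, mem_Lam, dst_comm, dst_sub]
  refine ⟨?_, hu.2⟩
  rw [dst_comm]
  exact hu.1

/-- the recursion -/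
theorem qs_rec (hp : 0 ≤ p) (hp1 : p ≤ 1) {C₂ : ℝ} (hC₂ : 0 ≤ C₂)
    (harm : ∀ (E : Finset (Ed d)) (x : V d) (r : ℕ), 1 ≤ r → PE p E {S | (sph S x r).Nonempty} ≤ C₂ / r)
    {s : ℕ} (hs : 2 ≤ s) (a b : ℝ) :
    qs d p s a ≤ qs d p ((s + 1) / 2) a + 4 / s * (4 * C₂ / s * Tm (d := d) (ppi p) s b +
      qs d p ((s + 1) / 2) (a - b) * GG d p s) := by
  classical
  refine qs_le fun E x => ?_
  have hs0 : (0 : ℝ) < s := by exact_mod_cast (by omega : 0 < s)
  set s' := (s + 1) / 2 with hs'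
  set s'' := (s + 3) / 4 with hs''
  have hs''1 : 1 ≤ s'' := by omega
  have hs''0 : (0 : ℝ) < s'' := by exact_mod_cast hs''1
  set D : Set (Set (Ed d)) := {S | ∃ y l, s' < l ∧ l ≤ s ∧ y ∈ sph S x l ∧ a ≤ (dst x y : ℝ)} with hD
  have h1 : PE p E (DispE x s a) ≤ PE p E (DispE x s' a) + PE p E D := by
    refine le_trans (PE_mono hp hp1 E ?_) (Pr_union_le (wt_p hp hp1) E _ _)
    rintro S ⟨y, hy, hay⟩
    obtain ⟨l, hl, hyl⟩ := ball_eq_sph.1 hy
    rcases Nat.lt_or_ge s' l with h4 | h4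
    · exact Or.inr ⟨y, l, h4, hl, hyl, hay⟩
    · exact Or.inl ⟨y, (mem_sph.1 hyl).1.mono subset_rfl h4, hay⟩
  have h2 : (s : ℝ) / 4 * PE p E D ≤ ∑ u ∈ Lam x s,
      ((if b ≤ (dst x u : ℝ) then C₂ / s'' else 0) + qs d p s' (a - b)) * PE p E {S | Rch S x s u} := by
    refine master hp hp1 E x s
      (Q := fun u => {T | b ≤ (dst x u : ℝ) ∧ (sph T u s'').Nonempty} ∪ DispE u s' (a - b)) ?_ ?_ ?_
    · intro u
      refine add_nonneg ?_ (qs_nonneg hp hp1 _ _)
      split_ifs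
      · positivity
      · exact le_rfl
    · intro u E' _
      refine (Pr_union_le (wt_p hp hp1) E' _ _).trans (add_le_add ?_ (PE_le_qs hp hp1 E' u s' _))
      split_ifs with h3
      · refine (PE_mono hp hp1 E' ?_).trans (harm E' u s'' hs''1)
        exact fun S hS => hS.2
      · have : {T : Set (Ed d) | b ≤ (dst x u : ℝ) ∧ (sph T u s'').Nonempty} = ∅ := by
          ext T
          simp [h3]
        rw [this]
        exact le_of_eq (Pr_empty_set _ _)
    · rintro S ⟨y, l, hl1, hl2, hy, hay⟩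
      refine ⟨Finset.Icc (l - s') (l - s''), ?_, ?_⟩
      · rw [Nat.card_Icc]
        have h6 : s ≤ 4 * (l - s'' + 1 - (l - s')) := by omega
        have h7 : (s : ℝ) ≤ ((4 * (l - s'' + 1 - (l - s')) : ℕ) : ℝ) := by exact_mod_cast h6
        rw [Nat.cast_mul] at h7
        push_cast at h7 ⊢
        linarith
      · intro j hj
        rw [Finset.mem_Icc] at hj
        refine ⟨by omega, ?_⟩
        have h6 : l = j + (l - j) := by omega
        rw [h6] at hy
        obtain ⟨u, hu, hy'⟩ := sph_rest hy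
        refine ⟨u, hu, ?_⟩
        by_cases h7 : b ≤ (dst x u : ℝ)
        · exact Or.inl ⟨h7, sph_nonempty_of_le hy' (by omega)⟩
        · refine Or.inr ⟨y, (mem_sph.1 hy').1.mono subset_rfl (by omega), ?_⟩
          push Not at h7
          have h8 : (dst x y : ℝ) ≤ dst x u + dst u y := by exact_mod_cast dst_tri x u y
          linarith
  have h3 : ∑ u ∈ Lam x s,
      ((if b ≤ (dst x u : ℝ) then C₂ / s'' else 0) + qs d p s' (a - b)) * PE p E {S | Rch S x s u} ≤
      4 * C₂ / s * Tm (d := d) (ppi p) s b + qs d p s' (a - b) * GG d p s := by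
    have h4 : ∑ u ∈ Lam x s,
        ((if b ≤ (dst x u : ℝ) then C₂ / s'' else 0) + qs d p s' (a - b)) * PE p E {S | Rch S x s u} ≤
        ∑ u ∈ Lam x s, ((if b ≤ (dst x u : ℝ) then C₂ / s'' * ppi p s (u - x) else 0) +
          qs d p s' (a - b) * ppi p s (u - x)) := by
      refine sum_le_sum fun u _ => ?_
      have h5 := PE_le_ppi hp hp1 E x u s
      have h6 : 0 ≤ C₂ / (s'' : ℝ) := by positivity
      have h7 := qs_nonneg (d := d) hp hp1 s' (a - b)
      split_ifs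
      · rw [← add_mul]
        exact mul_le_mul_of_nonneg_left h5 (by linarith)
      · rw [zero_add, zero_add]
        exact mul_le_mul_of_nonneg_left h5 h7
    refine h4.trans ?_
    rw [sum_add_distrib, ← sum_filter, ← mul_sum, ← mul_sum]
    refine add_le_add ?_ ?_
    · have h5 := sum_TT (d := d) hp hp1 x s b
      have h6 : C₂ / (s'' : ℝ) ≤ 4 * C₂ / s := by
        rw [div_le_div_iff₀ hs''0 hs0]
        have h7 : (s : ℝ) ≤ ((4 * s'' : ℕ) : ℝ) := by exact_mod_cast (by omega : s ≤ 4 * s'')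
        push_cast at h7
        nlinarith
      have h7 : 0 ≤ Tm (d := d) (ppi p) s b := sum_nonneg fun y _ => ppi_nonneg hp hp1 s y
      calc C₂ / (s'' : ℝ) * ∑ u ∈ (Lam x s).filter (fun u => b ≤ (dst x u : ℝ)), ppi p s (u - x) ≤
            C₂ / (s'' : ℝ) * Tm (d := d) (ppi p) s b := mul_le_mul_of_nonneg_left h5 (by positivity)
        _ ≤ 4 * C₂ / s * Tm (d := d) (ppi p) s b := mul_le_mul_of_nonneg_right h6 h7
    · exact mul_le_mul_of_nonneg_left (sum_ppi_sub_le hp hp1 s _ x) (qs_nonneg hp hp1 _ _)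
  have h4 : PE p E D ≤ 4 / s * (4 * C₂ / s * Tm (d := d) (ppi p) s b + qs d p s' (a - b) * GG d p s) := by
    calc PE p E D = 4 / s * ((s : ℝ) / 4 * PE p E D) := by field_simp
      _ ≤ _ := mul_le_mul_of_nonneg_left (h2.trans h3) (by positivity)
  have h5 := PE_le_qs hp hp1 E x s' a
  linarith

/-- **E2.** Polynomial tails of every order for the displacement of intrinsic balls, in all volumes. -/
theorem disp (hp : 0 ≤ p) (hp1 : p ≤ 1) {C C₂ : ℝ} (h : PiData d (ppi p) C) (hC₂ : 0 ≤ C₂)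
    (harm : ∀ (E : Finset (Ed d)) (x : V d) (r : ℕ), 1 ≤ r → PE p E {S | (sph S x r).Nonempty} ≤ C₂ / r)
    (i : Fin d) {c : ℝ} (hc : 0 < c) :
    ∃ N₀ : ℕ, ∀ N : ℕ, N₀ ≤ N → ∃ K : ℝ, 0 < K ∧ ∀ s : ℕ, 1 ≤ s → ∀ a : ℝ, 0 < a →
      qs d p s a ≤ K / s * (scale (ppi p) C i c s / a) ^ N := by
  have hC := h.one_le
  have hd : (1 : ℝ) ≤ d := by exact_mod_cast h.dim
  have h1 := h.alpha_one_le i
  refine arm_bound (D := 64 * d * C * C₂ + 1 + 4 * C) hc ?_ ?_ ?_ ?_ ?_ ?_
  · have : 0 ≤ 64 * d * C * C₂ := by positivity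
    linarith
  · intro s a
    exact qs_le fun E x => PE_le_one hp hp1 _ _
  · intro a ha
    refine qs_le fun E x => ?_
    have : DispE x 1 a = (∅ : Set (Set (Ed d))) := by
      ext S
      simp only [DispE, Set.mem_ofPred_eq, Set.mem_empty_iff_false, iff_false, not_exists, not_and, not_le]
      intro y hy
      have h2 := rch_dst hy
      have h3 : (dst x y : ℝ) ≤ 1 := by exact_mod_cast h2
      linarith
    rw [this]
    exact le_of_eq (Pr_empty_set _ _)
  · intro s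
    exact env_one_le h1 s
  · intro t s ht hts
    exact env_scale ht hts
  · intro s hs a b hb _
    have hs0 : (0 : ℝ) < s := by exact_mod_cast (by omega : 0 < s)
    have h2 := qs_rec (d := d) hp hp1 hC₂ harm hs a b
    have h3 : Tm (d := d) (ppi p) s b ≤ 4 * d * C * s * Real.exp (-(b / scale (ppi p) C i c s)) :=
      h.Tm_le i (by omega) (env_self (α := fun s => (alpha (ppi p) C i s : ℝ)) (c := c) (by omega)) b
    have h4 := qs_anti (d := d) hp hp1 ((s + 1) / 2) (show a - b ≤ a by linarith)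
    have h5 : GG d p s ≤ C * s := h.G_le s (by omega)
    have h6 := qs_nonneg (d := d) hp hp1 ((s + 1) / 2) (a - b)
    have h7 : 4 / (s : ℝ) * (4 * C₂ / s * Tm (d := d) (ppi p) s b) ≤
        64 * d * C * C₂ / s * Real.exp (-(b / scale (ppi p) C i c s)) := by
      calc 4 / (s : ℝ) * (4 * C₂ / s * Tm (d := d) (ppi p) s b) ≤
            4 / (s : ℝ) * (4 * C₂ / s * (4 * d * C * s * Real.exp (-(b / scale (ppi p) C i c s)))) := by
            apply mul_le_mul_of_nonneg_left _ (by positivity)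
            exact mul_le_mul_of_nonneg_left h3 (by positivity)
        _ = _ := by
          field_simp
          ring
    have h8 : 4 / (s : ℝ) * (qs d p ((s + 1) / 2) (a - b) * GG d p s) ≤ 4 * C * qs d p ((s + 1) / 2) (a - b) := by
      calc 4 / (s : ℝ) * (qs d p ((s + 1) / 2) (a - b) * GG d p s) ≤
            4 / (s : ℝ) * (qs d p ((s + 1) / 2) (a - b) * (C * s)) := by
            apply mul_le_mul_of_nonneg_left _ (by positivity)
            exact mul_le_mul_of_nonneg_left h5 h6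
        _ = _ := by
          field_simp
    have h9 : 64 * d * C * C₂ / s * Real.exp (-(b / scale (ppi p) C i c s)) ≤
        (64 * d * C * C₂ + 1 + 4 * C) / s * Real.exp (-(b / scale (ppi p) C i c s)) := by
      apply mul_le_mul_of_nonneg_right _ (Real.exp_pos _).le
      apply div_le_div_of_nonneg_right _ hs0.le
      linarith
    have h10 : 0 ≤ 64 * d * C * C₂ := by positivity
    have h11 : 0 ≤ 64 * d * C * C₂ * qs d p ((s + 1) / 2) (a - b) := mul_nonneg h10 h6
    rw [mul_add] at h2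
    linarith

end Pool.Agent.Lib.MP_06caae_pr
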