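import Mathlib

/-!
# The envelope of a scale
-/

open Finset

namespace Pool.Agent.Lib.MP_06caae_pr

/-- the envelope: `max_{1 ≤ s ≤ r} α s (r / s)^c` -/
noncomputable def env (α : ℕ → ℝ) (c : ℝ) (r : ℕ) : ℝ :=
  if h : 1 ≤ r then (Icc 1 r).sup' ⟨1, mem_Icc.2 ⟨le_rfl, h⟩⟩ (fun s => α s * ((r : ℝ) / s) ^ c) else 1

variable {α : ℕ → ℝ} {c : ℝ}

lemma env_ge {s r : ℕ} (hs : 1 ≤ s) (hr : s ≤ r) : α s * ((r : ℝ) / s) ^ c ≤ env α c r := by
  unfold env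
  rw [dif_pos (hs.trans hr)]
  exact Finset.le_sup' (fun s : ℕ => α s * ((r : ℝ) / s) ^ c) (mem_Icc.2 ⟨hs, hr⟩)

lemma env_self {r : ℕ} (hr : 1 ≤ r) : α r ≤ env α c r := by
  have h := env_ge (α := α) (c := c) hr le_rfl
  have h0 : (r : ℝ) ≠ 0 := by
    have : (0 : ℝ) < r := by exact_mod_cast hr
    exact this.ne'
  rwa [div_self h0, Real.one_rpow, mul_one] at h

lemma env_exists {r : ℕ} (hr : 1 ≤ r) : ∃ s : ℕ, 1 ≤ s ∧ s ≤ r ∧ env α c r = α s * ((r : ℝ) / s) ^ c := by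
  unfold env
  rw [dif_pos hr]
  obtain ⟨s, hs, h⟩ := Finset.exists_mem_eq_sup' (s := Icc 1 r) ⟨1, mem_Icc.2 ⟨le_rfl, hr⟩⟩
    (fun s : ℕ => α s * ((r : ℝ) / s) ^ c)
  exact ⟨s, (mem_Icc.1 hs).1, (mem_Icc.1 hs).2, h⟩

/-- at a maximising radius the scale lies below the power function -/
lemma env_max {r s t : ℕ} (hs : 1 ≤ s) (hsr : s ≤ r) (h : env α c r = α s * ((r : ℝ) / s) ^ c)
    (ht : 1 ≤ t) (htr : t ≤ r) : α t ≤ α s * ((t : ℝ) / s) ^ c := by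
  have h1 := env_ge (α := α) (c := c) ht htr
  rw [h] at h1
  have hs0 : (0 : ℝ) < s := by exact_mod_cast hs
  have ht0 : (0 : ℝ) < t := by exact_mod_cast ht
  have hr0 : (0 : ℝ) < r := by exact_mod_cast ht.trans htr
  have h2 : ((r : ℝ) / s) ^ c = ((t : ℝ) / s) ^ c * ((r : ℝ) / t) ^ c := by
    rw [← Real.mul_rpow (by positivity) (by positivity)]
    congr 1
    field_simp
  rw [h2, ← mul_assoc] at h1
  exact le_of_mul_le_mul_right h1 (Real.rpow_pos_of_pos (by positivity) c)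

lemma env_scale {s r : ℕ} (hs : 1 ≤ s) (hr : s ≤ r) : env α c s ≤ env α c r * ((s : ℝ) / r) ^ c := by
  obtain ⟨t, ht, hts, h⟩ := env_exists (α := α) (c := c) hs
  have h1 := env_ge (α := α) (c := c) ht (hts.trans hr)
  have hs0 : (0 : ℝ) < s := by exact_mod_cast hs
  have ht0 : (0 : ℝ) < t := by exact_mod_cast ht
  have hr0 : (0 : ℝ) < r := by exact_mod_cast hs.trans hr
  have h2 : ((s : ℝ) / t) ^ c = ((r : ℝ) / t) ^ c * ((s : ℝ) / r) ^ c := by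
    rw [← Real.mul_rpow (by positivity) (by positivity)]
    congr 1
    field_simp
  rw [h, h2, ← mul_assoc]
  exact mul_le_mul_of_nonneg_right h1 (Real.rpow_nonneg (by positivity) c)

lemma env_ge_pow (h1 : ∀ s, 1 ≤ s → 1 ≤ α s) {r : ℕ} (hr : 1 ≤ r) : (r : ℝ) ^ c ≤ env α c r := by
  have h := env_ge (α := α) (c := c) le_rfl hr
  rw [Nat.cast_one, div_one] at h
  refine le_trans ?_ h
  have h2 : (0 : ℝ) ≤ (r : ℝ) ^ c := Real.rpow_nonneg (Nat.cast_nonneg r) c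
  have h3 := h1 1 le_rfl
  nlinarith

lemma env_pos (h1 : ∀ s, 1 ≤ s → 1 ≤ α s) (r : ℕ) : 0 < env α c r := by
  by_cases hr : 1 ≤ r
  · have hr0 : (0 : ℝ) < r := by exact_mod_cast hr
    exact lt_of_lt_of_le (Real.rpow_pos_of_pos hr0 c) (env_ge_pow h1 hr)
  · unfold env
    rw [dif_neg hr]
    exact one_pos

lemma env_one_le (h1 : ∀ s, 1 ≤ s → 1 ≤ α s) (r : ℕ) : 1 ≤ env α c r := by
  by_cases hr : 1 ≤ r
  · exact (h1 r hr).trans (env_self hr)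
  · unfold env
    rw [dif_neg hr]

lemma env_mono (hc : 0 ≤ c) (h1 : ∀ s, 1 ≤ s → 1 ≤ α s) {s r : ℕ} (hr : s ≤ r) : env α c s ≤ env α c r := by
  by_cases hs : 1 ≤ s
  · have h2 := env_scale (α := α) (c := c) hs hr
    have hs0 : (0 : ℝ) < s := by exact_mod_cast hs
    have hr0 : (0 : ℝ) < r := by exact_mod_cast hs.trans hr
    have h3 : ((s : ℝ) / r) ^ c ≤ 1 := by
      apply Real.rpow_le_one (by positivity) _ hc
      rw [div_le_one hr0]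
      exact_mod_cast hr
    have h4 := env_pos (c := c) h1 r
    nlinarith
  · have h2 := env_one_le (c := c) h1 r
    unfold env at h2 ⊢
    rw [dif_neg hs]
    exact h2

lemma env_tendsto (hc : 0 < c) (h1 : ∀ s, 1 ≤ s → 1 ≤ α s) : Filter.Tendsto (env α c) Filter.atTop Filter.atTop := by
  refine Filter.tendsto_atTop_mono' _ ?_ ((tendsto_rpow_atTop hc).comp tendsto_natCast_atTop_atTop)
  filter_upwards [Filter.eventually_ge_atTop 1] with r hr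
  exact env_ge_pow h1 hr

/-- the maximising radius is large -/
lemma env_big (hc : 0 ≤ c) {d : ℕ} (hcd : c * d ≤ 1 / 2) (h1 : ∀ s, 1 ≤ s → 1 ≤ α s) {K : ℝ} (hK : 0 < K)
    (hα : ∀ r : ℕ, 1 ≤ r → (r : ℝ) ≤ K * α r ^ d) (n : ℕ) :
    ∃ r₀ : ℕ, ∀ r s : ℕ, r₀ ≤ r → 1 ≤ s → s ≤ r → env α c r = α s * ((r : ℝ) / s) ^ c → n ≤ s := by
  -- a bound for the scale at radii below `n`
  obtain ⟨M, hM1, hM⟩ : ∃ M : ℝ, 1 ≤ M ∧ ∀ s, 1 ≤ s → s < n → α s ≤ M := by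
    refine ⟨1 + ∑ s ∈ range n, |α s|, ?_, fun s _ hsn => ?_⟩
    · have : 0 ≤ ∑ s ∈ range n, |α s| := sum_nonneg fun _ _ => abs_nonneg _
      linarith
    · have h2 := single_le_sum (f := fun s => |α s|) (fun i _ => abs_nonneg (α i)) (mem_range.2 hsn)
      have h3 := le_abs_self (α s)
      linarith
  obtain ⟨r₀, hr₀⟩ := exists_nat_gt ((K * M ^ d) ^ 2)
  refine ⟨max r₀ 1, fun r s hr hs hsr h => ?_⟩
  by_contra hsn
  push Not at hsn
  have hr1 : 1 ≤ r := (le_max_right _ _).trans hr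
  have hr1' : (1 : ℝ) ≤ r := by exact_mod_cast hr1
  have hs1' : (1 : ℝ) ≤ s := by exact_mod_cast hs
  have hrr : (K * M ^ d) ^ 2 < r := lt_of_lt_of_le hr₀ (by exact_mod_cast (le_max_left _ _).trans hr)
  have h2 := env_max hs hsr h hr1 le_rfl
  have h3 : ((r : ℝ) / s) ^ c ≤ (r : ℝ) ^ c := by
    apply Real.rpow_le_rpow (by positivity) _ hc
    exact div_le_self (by linarith) hs1'
  have h4 : α r ≤ M * (r : ℝ) ^ c := by
    have h5 := hM s hs hsn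
    have h6 := h1 s hs
    have h7 : (0 : ℝ) ≤ (r : ℝ) ^ c := Real.rpow_nonneg (by linarith) c
    calc α r ≤ α s * ((r : ℝ) / s) ^ c := h2
      _ ≤ α s * (r : ℝ) ^ c := mul_le_mul_of_nonneg_left h3 (by linarith)
      _ ≤ M * (r : ℝ) ^ c := mul_le_mul_of_nonneg_right h5 h7
  have h5 := hα r hr1
  have h6 : α r ^ d ≤ M ^ d * (r : ℝ) ^ (1 / 2 : ℝ) := by
    have h7 : α r ^ d ≤ (M * (r : ℝ) ^ c) ^ d := pow_le_pow_left₀ (by linarith [h1 r hr1]) h4 d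
    refine h7.trans ?_
    rw [mul_pow]
    apply mul_le_mul_of_nonneg_left _ (by positivity)
    rw [← Real.rpow_natCast, ← Real.rpow_mul (by linarith)]
    exact Real.rpow_le_rpow_of_exponent_le hr1' hcd
  have h7 : (r : ℝ) ≤ K * M ^ d * (r : ℝ) ^ (1 / 2 : ℝ) := by
    calc (r : ℝ) ≤ K * α r ^ d := h5
      _ ≤ K * (M ^ d * (r : ℝ) ^ (1 / 2 : ℝ)) := mul_le_mul_of_nonneg_left h6 hK.le
      _ = _ := by ring
  have h8 : (0 : ℝ) < (r : ℝ) ^ (1 / 2 : ℝ) := Real.rpow_pos_of_pos (by linarith) _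
  have h9 : (r : ℝ) ^ (1 / 2 : ℝ) * (r : ℝ) ^ (1 / 2 : ℝ) = r := by
    rw [← Real.rpow_add (by linarith)]
    norm_num
  have h10 : (r : ℝ) ^ (1 / 2 : ℝ) ≤ K * M ^ d := by
    by_contra h11
    push Not at h11
    nlinarith
  have h11 : (r : ℝ) ≤ (K * M ^ d) ^ 2 := by
    rw [← h9, sq]
    exact mul_self_le_mul_self h8.le h10
  linarith

end Pool.Agent.Lib.MP_06caae_pr
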