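import Pool.Agent.Lib.MP_566bac_pr.Zd.Base

/-!
# Exponential moments of the truncated two point function

Pure analysis. `Hm π i r θ = ∑_y π r y exp (θ y_i)`.
-/

open Finset

namespace Pool.Agent.Lib.MP_06caae_pr

open Pool.Agent.Lib.MP_566bac_pr.Zd

variable {d : ℕ}

/-- the properties of the truncated two point functions used for the extrinsic scale -/
structure PiData (d : ℕ) (π : ℕ → V d → ℝ) (C : ℝ) : Prop where
  dim : 0 < d
  one_le : 1 ≤ C
  nonneg : ∀ r y, 0 ≤ π r y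
  le_one : ∀ r y, π r y ≤ 1
  supp : ∀ r y, r < dst 0 y → π r y = 0
  flip : ∀ r i y, π r (Function.update y i (-(y i))) = π r y
  perm : ∀ r (σ : Equiv.Perm (Fin d)) y, π r (fun i => y (σ i)) = π r y
  G_le : ∀ r : ℕ, 1 ≤ r → ∑ y ∈ Lam 0 r, π r y ≤ C * r
  G_ge : ∀ r : ℕ, (r : ℝ) + 1 ≤ ∑ y ∈ Lam 0 r, π r y
  split : ∀ s s' : ℕ, 1 ≤ s → s ≤ s' → 2 * s' ≤ 3 * s → ∀ y,
    π s' y ≤ π s y + (2 / s) * ∑ u ∈ Lam 0 s, π s u * π s (y - u)

/-- exponential moments -/
noncomputable def Hm (π : ℕ → V d → ℝ) (i : Fin d) (r : ℕ) (θ : ℝ) : ℝ :=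
  ∑ y ∈ Lam 0 r, π r y * Real.exp (θ * y i)

/-- the expected volume -/
noncomputable def Gm (π : ℕ → V d → ℝ) (r : ℕ) : ℝ := ∑ y ∈ Lam 0 r, π r y

/-- the expected number of displaced points -/
noncomputable def Tm (π : ℕ → V d → ℝ) (r : ℕ) (s : ℝ) : ℝ :=
  ∑ y ∈ (Lam 0 r).filter (fun y => s ≤ (dst 0 y : ℝ)), π r y

section
variable {π : ℕ → V d → ℝ} {C : ℝ}

lemma dst_zero_flip (i : Fin d) (y : V d) : dst 0 (Function.update y i (-(y i))) = dst 0 y := by
  unfold dst
  congr 1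
  funext j
  by_cases h : j = i
  · subst h
    simp only [Function.update_self, Pi.zero_apply, zero_sub, neg_neg, Int.natAbs_neg]
  · simp only [Function.update_of_ne h]

lemma dst_zero_perm (σ : Equiv.Perm (Fin d)) (y : V d) : dst 0 (fun i => y (σ i)) = dst 0 y := by
  apply le_antisymm
  · rw [dst_le]
    intro i
    exact le_dst 0 y (σ i)
  · rw [dst_le]
    intro i
    have h := le_dst 0 (fun i => y (σ i)) (σ.symm i)
    simp only [Equiv.apply_symm_apply] at h
    exact h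

/-- sums over boxes are invariant under the reflections -/
lemma sum_flip (i : Fin d) (r : ℕ) (f : V d → ℝ) :
    ∑ y ∈ Lam 0 r, f (Function.update y i (-(y i))) = ∑ y ∈ Lam 0 r, f y := by
  have hinv : ∀ y : V d, Function.update (Function.update y i (-(y i))) i
      (-((Function.update y i (-(y i)) : V d) i)) = y := by
    intro y
    simp
  refine Finset.sum_nbij' (fun y => Function.update y i (-(y i))) (fun y => Function.update y i (-(y i)))
    ?_ ?_ (fun y _ => hinv y) (fun y _ => hinv y) (fun y _ => rfl)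
  · intro y hy
    rw [mem_Lam, dst_comm, dst_zero_flip, dst_comm, ← mem_Lam]
    exact hy
  · intro y hy
    rw [mem_Lam, dst_comm, dst_zero_flip, dst_comm, ← mem_Lam]
    exact hy

lemma sum_perm (σ : Equiv.Perm (Fin d)) (r : ℕ) (f : V d → ℝ) :
    ∑ y ∈ Lam 0 r, f (fun i => y (σ i)) = ∑ y ∈ Lam 0 r, f y := by
  refine Finset.sum_nbij' (fun y => fun i => y (σ i)) (fun y => fun i => y (σ.symm i))
    ?_ ?_ (fun y _ => ?_) (fun y _ => ?_) (fun y _ => rfl)
  · intro y hy
    rw [mem_Lam, dst_comm, dst_zero_perm, dst_comm, ← mem_Lam]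
    exact hy
  · intro y hy
    rw [mem_Lam, dst_comm, dst_zero_perm, dst_comm, ← mem_Lam]
    exact hy
  · funext i
    simp
  · funext i
    simp

lemma PiData.sum_Lam (h : PiData d π C) (r n : ℕ) (hn : r ≤ n) (f : V d → ℝ) :
    ∑ y ∈ Lam 0 n, π r y * f y = ∑ y ∈ Lam 0 r, π r y * f y := by
  symm
  refine Finset.sum_subset (Lam_mono 0 hn) fun y _ hy => ?_
  have h1 : r < dst 0 y := by
    rw [mem_Lam, dst_comm, not_le] at hy
    exact hy
  rw [h.supp r y h1, zero_mul]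

lemma PiData.Hm_zero (i : Fin d) (r : ℕ) : Hm π i r 0 = Gm π r := by
  unfold Hm Gm
  refine Finset.sum_congr rfl fun y _ => ?_
  rw [zero_mul, Real.exp_zero, mul_one]

lemma PiData.Hm_cosh (h : PiData d π C) (i : Fin d) (r : ℕ) (θ : ℝ) :
    Hm π i r θ = ∑ y ∈ Lam 0 r, π r y * Real.cosh (θ * y i) := by
  have h1 : Hm π i r θ = ∑ y ∈ Lam 0 r, π r y * Real.exp (-(θ * y i)) := by
    unfold Hm
    rw [← sum_flip i r fun y => π r y * Real.exp (θ * y i)]
    refine Finset.sum_congr rfl fun y _ => ?_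
    rw [h.flip]
    simp only [Function.update_self]
    push_cast
    congr 2
    ring
  have h2 : 2 * Hm π i r θ = 2 * ∑ y ∈ Lam 0 r, π r y * Real.cosh (θ * y i) := by
    calc 2 * Hm π i r θ = Hm π i r θ + ∑ y ∈ Lam 0 r, π r y * Real.exp (-(θ * y i)) := by rw [← h1]; ring
      _ = 2 * ∑ y ∈ Lam 0 r, π r y * Real.cosh (θ * y i) := by
        unfold Hm
        rw [← Finset.sum_add_distrib, Finset.mul_sum]
        refine Finset.sum_congr rfl fun y _ => ?_
        rw [Real.cosh_eq]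
        ring
  linarith

lemma PiData.Hm_nonneg (h : PiData d π C) (i : Fin d) (r : ℕ) (θ : ℝ) : 0 ≤ Hm π i r θ :=
  Finset.sum_nonneg fun y _ => mul_nonneg (h.nonneg r y) (Real.exp_pos _).le

lemma PiData.Hm_mono (h : PiData d π C) (i : Fin d) (r : ℕ) {θ θ' : ℝ} (h0 : 0 ≤ θ) (h1 : θ ≤ θ') :
    Hm π i r θ ≤ Hm π i r θ' := by
  rw [h.Hm_cosh, h.Hm_cosh]
  refine Finset.sum_le_sum fun y _ => mul_le_mul_of_nonneg_left ?_ (h.nonneg r y)
  rw [Real.cosh_le_cosh, abs_mul, abs_mul, abs_of_nonneg h0, abs_of_nonneg (h0.trans h1)]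
  exact mul_le_mul_of_nonneg_right h1 (abs_nonneg _)

lemma PiData.Hm_coord (h : PiData d π C) (i j : Fin d) (r : ℕ) (θ : ℝ) : Hm π i r θ = Hm π j r θ := by
  unfold Hm
  rw [← sum_perm (Equiv.swap i j) r fun y => π r y * Real.exp (θ * y j)]
  refine Finset.sum_congr rfl fun y _ => ?_
  rw [h.perm]
  simp only [Equiv.swap_apply_right]

lemma PiData.Gm_le (h : PiData d π C) {r : ℕ} (hr : 1 ≤ r) : Gm π r ≤ C * r := h.G_le r hr

/-- the splitting inequality for the exponential moments -/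
lemma PiData.Hm_split (h : PiData d π C) (i : Fin d) {s s' : ℕ} (hs : 1 ≤ s) (h1 : s ≤ s') (h2 : 2 * s' ≤ 3 * s)
    (θ : ℝ) : Hm π i s' θ ≤ Hm π i s θ + (2 / s) * (Hm π i s θ) ^ 2 := by
  have hs0 : (0 : ℝ) < s := by exact_mod_cast hs
  have h3 : Hm π i s' θ ≤ ∑ y ∈ Lam 0 (2 * s), (π s y * Real.exp (θ * y i) +
      (2 / s) * ∑ u ∈ Lam 0 s, (π s u * Real.exp (θ * u i)) * (π s (y - u) * Real.exp (θ * (y - u) i))) := by
    unfold Hm
    refine (Finset.sum_le_sum_of_subset_of_nonneg (Lam_mono 0 (show s' ≤ 2 * s by omega)) fun y _ _ =>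
      mul_nonneg (h.nonneg s' y) (Real.exp_pos _).le).trans (Finset.sum_le_sum fun y _ => ?_)
    have h4 := mul_le_mul_of_nonneg_right (h.split s s' hs h1 h2 y) (Real.exp_pos (θ * y i)).le
    refine h4.trans (le_of_eq ?_)
    rw [add_mul, mul_assoc, Finset.sum_mul]
    congr 2
    refine Finset.sum_congr rfl fun u _ => ?_
    have h5 : Real.exp (θ * y i) = Real.exp (θ * u i) * Real.exp (θ * (y - u) i) := by
      rw [← Real.exp_add]
      congr 1
      rw [Pi.sub_apply]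
      push_cast
      ring
    rw [h5]
    ring
  refine h3.trans ?_
  rw [Finset.sum_add_distrib, ← Finset.mul_sum, h.sum_Lam s (2 * s) (by omega)]
  have h6 : ∑ y ∈ Lam 0 (2 * s), ∑ u ∈ Lam 0 s, (π s u * Real.exp (θ * u i)) *
      (π s (y - u) * Real.exp (θ * (y - u) i)) ≤ (Hm π i s θ) ^ 2 := by
    rw [Finset.sum_comm]
    have h7 : (Hm π i s θ) ^ 2 = ∑ u ∈ Lam 0 s, (π s u * Real.exp (θ * u i)) * Hm π i s θ := by
      rw [← Finset.sum_mul, sq]
      rfl
    rw [h7]
    refine Finset.sum_le_sum fun u _ => ?_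
    rw [← Finset.mul_sum]
    refine mul_le_mul_of_nonneg_left ?_ (mul_nonneg (h.nonneg s u) (Real.exp_pos _).le)
    have h8 : ∑ y ∈ Lam 0 (2 * s), π s (y - u) * Real.exp (θ * (y - u) i) =
        ∑ z ∈ (Lam 0 (2 * s)).image (fun y => y - u), π s z * Real.exp (θ * z i) := by
      rw [Finset.sum_image]
      intro a _ b _ hab
      exact sub_left_injective hab
    rw [h8]
    have h9 : ∑ z ∈ (Lam 0 (2 * s)).image (fun y => y - u), π s z * Real.exp (θ * z i) =
        ∑ z ∈ ((Lam 0 (2 * s)).image (fun y => y - u)).filter (fun z => z ∈ Lam 0 s), π s z * Real.exp (θ * z i) := by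
      symm
      refine Finset.sum_filter_of_ne fun z _ hz => ?_
      by_contra hz'
      apply hz
      have h10 : s < dst 0 z := by
        rw [mem_Lam, dst_comm, not_le] at hz'
        exact hz'
      rw [h.supp s z h10, zero_mul]
    rw [h9]
    refine Finset.sum_le_sum_of_subset_of_nonneg (fun z hz => (Finset.mem_filter.1 hz).2) fun z _ _ =>
      mul_nonneg (h.nonneg s z) (Real.exp_pos _).le
  have h7 := mul_le_mul_of_nonneg_left h6 (div_nonneg (by norm_num : (0 : ℝ) ≤ 2) hs0.le)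
  unfold Hm at h7 ⊢
  linarith

end

end Pool.Agent.Lib.MP_06caae_pr
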