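import Pool.Agent.Lib.MP_06caae_pr.B.Alpha
import Pool.Agent.Lib.MP_06caae_pr.B.Env

/-!
# At a maximising radius the scale is attained by a positive fraction
-/

open Finset

namespace Pool.Agent.Lib.MP_06caae_pr

open Pool.Agent.Lib.MP_566bac_pr.Zd

variable {d : ℕ}

section
variable {π : ℕ → V d → ℝ} {C : ℝ}

lemma Tm_anti (h : PiData d π C) (r : ℕ) {a b : ℝ} (hab : a ≤ b) : Tm π r b ≤ Tm π r a := by
  unfold Tm
  refine Finset.sum_le_sum_of_subset_of_nonneg ?_ fun y _ _ => h.nonneg r y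
  intro y hy
  rw [Finset.mem_filter] at hy ⊢
  exact ⟨hy.1, hab.trans hy.2⟩

lemma Tm_nonneg (h : PiData d π C) (r : ℕ) (a : ℝ) : 0 ≤ Tm π r a := Finset.sum_nonneg fun y _ => h.nonneg r y

/-- the analytic core: a bound at `2 θ` turns the excess at `θ` into mass -/
lemma PiData.mass (h : PiData d π C) (i : Fin d) {R : ℕ} (hR : 1 ≤ R) {θ C₃ : ℝ} (hC₃ : 0 < C₃)
    (h1 : 2 * C * R < Hm π i R θ) (h2 : Hm π i R (2 * θ) ≤ C₃ * R) :
    16 * C ^ 2 / (25 * C₃) * R ≤ ∑ y ∈ (Lam 0 R).filter (fun y => 1 / 2 ≤ |θ * (y i : ℝ)|), π R y := by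
  have hC := h.one_le
  have hR0 : (0 : ℝ) < R := by exact_mod_cast hR
  set S := (Lam (0 : V d) R).filter (fun y => 1 / 2 ≤ |θ * (y i : ℝ)|) with hS
  rw [h.Hm_cosh] at h1 h2
  rw [← Finset.sum_filter_add_sum_filter_not (Lam 0 R) (fun y => 1 / 2 ≤ |θ * (y i : ℝ)|), ← hS] at h1
  have h3 : ∑ y ∈ (Lam 0 R).filter (fun y => ¬ 1 / 2 ≤ |θ * (y i : ℝ)|), π R y * Real.cosh (θ * y i) ≤
      6 / 5 * (C * R) := by
    have h4 : ∑ y ∈ (Lam 0 R).filter (fun y => ¬ 1 / 2 ≤ |θ * (y i : ℝ)|), π R y * Real.cosh (θ * y i) ≤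
        ∑ y ∈ Lam 0 R, π R y * (6 / 5) := by
      refine (Finset.sum_le_sum fun y hy => mul_le_mul_of_nonneg_left ?_ (h.nonneg R y)).trans
        (Finset.sum_le_sum_of_subset_of_nonneg (Finset.filter_subset _ _) fun y _ _ =>
          mul_nonneg (h.nonneg R y) (by norm_num))
      have h5 := (Finset.mem_filter.1 hy).2
      push Not at h5
      have h6 : Real.cosh (θ * y i) ≤ Real.cosh (1 / 2) := by
        rw [Real.cosh_le_cosh, abs_of_pos (show (0 : ℝ) < 1 / 2 by norm_num)]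
        exact h5.le
      have h7 := Real.cosh_le_exp_half_sq (1 / 2)
      have h8 : Real.exp ((1 / 2) ^ 2 / 2) ≤ 8 / 7 := by
        have h9 := Real.add_one_le_exp (-(1 / 8 : ℝ))
        have h10 : Real.exp ((1 / 2) ^ 2 / 2) * Real.exp (-(1 / 8 : ℝ)) = 1 := by
          rw [← Real.exp_add]
          norm_num
        have h11 := Real.exp_pos ((1 / 2 : ℝ) ^ 2 / 2)
        nlinarith
      linarith
    refine h4.trans ?_
    rw [← Finset.sum_mul]
    have := h.G_le R hR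
    linarith
  have h4 : 4 / 5 * (C * R) ≤ ∑ y ∈ S, π R y * Real.cosh (θ * y i) := by linarith
  set μ := 5 * C₃ / (4 * C) with hμ
  have hμ0 : 0 < μ := by positivity
  have h5 : ∑ y ∈ S, π R y * Real.cosh (θ * y i) ≤ μ / 2 * ∑ y ∈ S, π R y + 1 / (2 * μ) * (C₃ * R) := by
    have h6 : ∑ y ∈ S, π R y * Real.cosh (θ * y i) ≤
        ∑ y ∈ S, (μ / 2 * π R y + 1 / (2 * μ) * (π R y * Real.cosh (2 * θ * y i))) := by
      refine Finset.sum_le_sum fun y _ => ?_
      have h7 : Real.cosh (θ * y i) ^ 2 ≤ Real.cosh (2 * θ * y i) := by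
        rw [mul_assoc, Real.cosh_two_mul]
        nlinarith [sq_nonneg (Real.sinh (θ * y i))]
      have h8 : Real.cosh (θ * y i) ≤ μ / 2 + 1 / (2 * μ) * Real.cosh (2 * θ * y i) := by
        have h9 : Real.cosh (θ * y i) ≤ μ / 2 + 1 / (2 * μ) * Real.cosh (θ * y i) ^ 2 := by
          have h10 : μ / 2 + 1 / (2 * μ) * Real.cosh (θ * y i) ^ 2 - Real.cosh (θ * y i) =
              (μ - Real.cosh (θ * y i)) ^ 2 / (2 * μ) := by
            field_simp
            ring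
          have h11 : 0 ≤ (μ - Real.cosh (θ * y i)) ^ 2 / (2 * μ) := by positivity
          linarith
        have h10 : 1 / (2 * μ) * Real.cosh (θ * y i) ^ 2 ≤ 1 / (2 * μ) * Real.cosh (2 * θ * y i) :=
          mul_le_mul_of_nonneg_left h7 (by positivity)
        linarith
      have h9 := mul_le_mul_of_nonneg_left h8 (h.nonneg R y)
      calc π R y * Real.cosh (θ * y i) ≤ π R y * (μ / 2 + 1 / (2 * μ) * Real.cosh (2 * θ * y i)) := h9
        _ = _ := by ring
    rw [Finset.sum_add_distrib, ← Finset.mul_sum, ← Finset.mul_sum] at h6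
    have h7 : ∑ y ∈ S, π R y * Real.cosh (2 * θ * y i) ≤ C₃ * R := by
      refine le_trans (Finset.sum_le_sum_of_subset_of_nonneg (Finset.filter_subset _ _) fun y _ _ => ?_) h2
      exact mul_nonneg (h.nonneg R y) (Real.cosh_pos _).le
    have h8 : 1 / (2 * μ) * ∑ y ∈ S, π R y * Real.cosh (2 * θ * y i) ≤ 1 / (2 * μ) * (C₃ * R) :=
      mul_le_mul_of_nonneg_left h7 (by positivity)
    linarith
  have h6 : 1 / (2 * μ) * (C₃ * R) = 2 / 5 * (C * R) := by
    rw [hμ]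
    field_simp
    ring
  have h7 : 2 / 5 * (C * R) ≤ μ / 2 * ∑ y ∈ S, π R y := by linarith
  have h8 : 16 * C ^ 2 / (25 * C₃) * R = 2 / μ * (2 / 5 * (C * R)) := by
    rw [hμ]
    field_simp
    ring
  rw [h8]
  calc 2 / μ * (2 / 5 * (C * R)) ≤ 2 / μ * (μ / 2 * ∑ y ∈ S, π R y) :=
        mul_le_mul_of_nonneg_left h7 (by positivity)
    _ = ∑ y ∈ S, π R y := by field_simp

/-- a positive fraction of the expected volume is displaced at a maximising radius -/
theorem PiData.low (h : PiData d π C) (i : Fin d) {c : ℝ} (hc : 0 < c) :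
    ∃ c₁ : ℝ, 0 < c₁ ∧ ∃ n₀ : ℕ, ∀ R : ℕ, n₀ ≤ R → 1 ≤ R →
      (∀ t : ℕ, 1 ≤ t → t ≤ R → (alpha π C i t : ℝ) ≤ alpha π C i R * ((t : ℝ) / R) ^ c) →
      c₁ * R ≤ Tm π R (alpha π C i R / 4) := by
  have hC := h.one_le
  -- the ratio
  obtain ⟨N, hN⟩ := exists_nat_gt ((4 : ℝ) ^ (1 / c))
  have hN0 : (0 : ℝ) < N := lt_trans (Real.rpow_pos_of_pos (by norm_num) _) hN
  have hN1 : 1 ≤ N := by
    have : 0 < N := by exact_mod_cast hN0
    omega
  set M := 2 * N with hM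
  have hMc : (4 : ℝ) ≤ ((M : ℝ) / 2) ^ c := by
    have h1 : ((M : ℝ) / 2) = N := by
      rw [hM]
      push_cast
      ring
    rw [h1]
    calc (4 : ℝ) = ((4 : ℝ) ^ (1 / c)) ^ c := by
          rw [← Real.rpow_mul (by norm_num), one_div, inv_mul_cancel₀ hc.ne', Real.rpow_one]
      _ ≤ (N : ℝ) ^ c := Real.rpow_le_rpow (Real.rpow_nonneg (by norm_num) _) hN.le hc.le
  obtain ⟨k, hk⟩ : ∃ k : ℕ, M * 4 ^ k ≤ 5 ^ k := by
    obtain ⟨k, hk⟩ := pow_unbounded_of_one_lt (M : ℝ) (show (1 : ℝ) < 5 / 4 by norm_num)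
    refine ⟨k, ?_⟩
    have h1 : (M : ℝ) * 4 ^ k ≤ 5 ^ k := by
      rw [div_pow, lt_div_iff₀ (by positivity)] at hk
      exact hk.le
    exact_mod_cast h1
  set C₃ := psi^[k] (2 * C) with hC₃
  have hC₃0 : 0 < C₃ := lt_of_lt_of_le (by linarith) (psi_iter_ge k)
  refine ⟨16 * C ^ 2 / (25 * C₃), by positivity, 6 * M, fun R hR hR1 hmax => ?_⟩
  have hR0 : (0 : ℝ) < R := by exact_mod_cast hR1
  -- the smaller radius
  set s := (R + M - 1) / M with hs
  have hM0 : 0 < M := by omega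
  have hs1 : R ≤ M * s := by
    have h1 := Nat.div_add_mod (R + M - 1) M
    have h2 := Nat.mod_lt (R + M - 1) hM0
    rw [← hs] at h1
    omega
  have hs2 : M * s ≤ R + M - 1 := Nat.mul_div_le _ _
  have hs6 : 6 ≤ s := by
    by_contra h1
    push Not at h1
    have h2 : M * s ≤ M * 5 := Nat.mul_le_mul_left M (by omega)
    omega
  have hsR : s ≤ R := by
    have h1 : 2 * s ≤ M * s := Nat.mul_le_mul_right s (by omega)
    omega
  have hs3 : M * s ≤ 2 * R := by omega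
  obtain ⟨hαs1, hαs2⟩ := h.alpha_mem i (r := s) (by omega)
  obtain ⟨hαR1, _⟩ := h.alpha_mem i (r := R) hR1
  have hαs1' : (1 : ℝ) ≤ alpha π C i s := by exact_mod_cast hαs1
  have hα4 : 4 * (alpha π C i s : ℝ) ≤ alpha π C i R := by
    have h1 := hmax s (by omega) hsR
    have h2 : ((s : ℝ) / R) ^ c ≤ 1 / 4 := by
      have h3 : (s : ℝ) / R ≤ ((M : ℝ) / 2)⁻¹ := by
        rw [inv_div, div_le_div_iff₀ hR0 (by exact_mod_cast hM0)]
        have h4 : ((M * s : ℕ) : ℝ) ≤ ((2 * R : ℕ) : ℝ) := by exact_mod_cast hs3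
        push_cast at h4
        linarith
      calc ((s : ℝ) / R) ^ c ≤ (((M : ℝ) / 2)⁻¹) ^ c := Real.rpow_le_rpow (by positivity) h3 hc.le
        _ = (((M : ℝ) / 2) ^ c)⁻¹ := Real.inv_rpow (by positivity) c
        _ ≤ (4 : ℝ)⁻¹ := inv_anti₀ (by norm_num) hMc
        _ = 1 / 4 := by norm_num
    have h3 : (0 : ℝ) ≤ alpha π C i R := Nat.cast_nonneg _
    nlinarith
  set a := alpha π C i R - 1 with ha
  have ha4 : 4 * alpha π C i s ≤ alpha π C i R := by exact_mod_cast hα4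
  have ha1 : 1 ≤ a := by omega
  have ha2 : a < alpha π C i R := by omega
  have hgt := Hm_gt (π := π) (C := C) i ha1 ha2
  have ha0 : (0 : ℝ) < a := by exact_mod_cast ha1
  have hcast : (alpha π C i R : ℝ) = a + 1 := by
    have : alpha π C i R = a + 1 := by omega
    rw [this]
    push_cast
    ring
  have h2 : Hm π i R (2 * (1 / (a : ℝ))) ≤ C₃ * R := by
    have h3 : 2 * (1 / (a : ℝ)) ≤ 1 / (alpha π C i s : ℝ) := by
      rw [mul_one_div, div_le_div_iff₀ ha0 (by linarith)]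
      linarith
    have h4 := h.Hm_mono i R (by positivity) h3
    have h5 := h.Hm_iter i (1 / (alpha π C i s : ℝ)) k hs6 hsR (by
      calc R * 4 ^ k ≤ (M * s) * 4 ^ k := Nat.mul_le_mul_right _ hs1
        _ = s * (M * 4 ^ k) := by ring
        _ ≤ s * 5 ^ k := Nat.mul_le_mul_left _ hk)
    have h6 : Hm π i s (1 / (alpha π C i s : ℝ)) / s ≤ 2 * C := by
      rw [div_le_iff₀ (by exact_mod_cast (by omega : 0 < s))]
      exact hαs2
    have h7 := psi_iter_mono (div_nonneg (h.Hm_nonneg i s _) (Nat.cast_nonneg s)) h6 k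
    have h8 : Hm π i R (1 / (alpha π C i s : ℝ)) / R ≤ C₃ := h5.trans h7
    rw [div_le_iff₀ hR0] at h8
    linarith
  refine (h.mass i hR1 hC₃0 hgt h2).trans ?_
  unfold Tm
  refine Finset.sum_le_sum_of_subset_of_nonneg ?_ fun y _ _ => h.nonneg R y
  intro y hy
  rw [Finset.mem_filter] at hy ⊢
  refine ⟨hy.1, ?_⟩
  have h3 := hy.2
  rw [abs_mul, abs_of_pos (by positivity), one_div_mul_eq_div, le_div_iff₀ ha0] at h3
  have h4 : |(y i : ℝ)| ≤ dst 0 y := by
    have h5 := le_dst 0 y i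
    rw [Pi.zero_apply, zero_sub, abs_neg] at h5
    have h6 : ((|y i| : ℤ) : ℝ) ≤ ((dst 0 y : ℤ) : ℝ) := by exact_mod_cast h5
    push_cast at h6
    exact h6
  rw [hcast]
  have h5 : (1 : ℝ) ≤ a := by exact_mod_cast ha1
  linarith

end

end Pool.Agent.Lib.MP_06caae_pr
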