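import Pool.Agent.Lib.MP_06caae_pr.B.Vol
import Pool.Agent.Lib.MP_06caae_pr.B.Disp

/-!
# Uniform lower bound of the volume and uniform extrinsic modulus
-/

open Finset SimpleGraph MeasureTheory
open Pool.Agent.Lib.MP_566bac_pr.Zd

namespace Pool.Agent.Lib.MP_06caae_pr

variable {d : ℕ} {p : ℝ}

/-! ### events determined by the exploration -/

lemma ball_agree_at {x z : V d} {L s : ℕ} {S S' : Set (Ed d)} (h : Agree (tb x (L + s) S) S S')
    (hz : z ∈ ball S x L) : ∀ t ≤ s, ball S' z t = ball S z t := by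
  intro t
  induction t with
  | zero =>
    intro _
    ext y
    rw [mem_ball, mem_ball, rch_zero, rch_zero]
  | succ t ih =>
    intro ht
    have ih' := ih (by omega)
    ext y
    rw [mem_ball, mem_ball, rch_succ, rch_succ]
    have key : ∀ w : V d, Rch S z t w → (s(w, y) ∈ S ↔ s(w, y) ∈ S') := by
      intro w hw
      refine h _ ⟨L + t, by omega, w, ?_, Sym2.mem_mk_left w y⟩
      exact mem_ball.2 ((mem_ball.1 hz).trans hw)
    constructor
    · rintro (h1 | ⟨w, hw, hwy, he⟩)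
      · exact Or.inl h1
      · have hw' : Rch S z t w := by
          rw [← mem_ball, ← ih', mem_ball]
          exact hw
        exact Or.inr ⟨w, hw', hwy, (key w hw').2 he⟩
    · rintro (h1 | ⟨w, hw, hwy, he⟩)
      · exact Or.inl h1
      · have hw' : Rch S' z t w := by
          rw [← mem_ball, ih', mem_ball]
          exact hw
        exact Or.inr ⟨w, hw', hwy, (key w hw).1 he⟩

/-- a property of the balls of radius `s` around the points of the ball of radius `L` -/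
lemma bdet_exists (x : V d) {L s r : ℕ} (hr : L + s ≤ r) (F : V d → Finset (V d) → Prop) :
    BDet x r {S | ∃ z ∈ ball S x L, F z (ball S z s)} := by
  rw [bdet_iff]
  intro S S' hS
  have hS' : Agree (tb x (L + s) S) S S' := fun e he => hS e (by
    obtain ⟨k, hk, h⟩ := he
    exact ⟨k, by omega, h⟩)
  refine propext ?_
  simp only [Set.mem_ofPred_eq]
  rw [ball_agree hS' L (by omega)]
  constructor
  · rintro ⟨z, hz, h⟩
    rw [ball_agree_at hS' hz s le_rfl] at h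
    exact ⟨z, hz, h⟩
  · rintro ⟨z, hz, h⟩
    refine ⟨z, hz, ?_⟩
    rw [ball_agree_at hS' hz s le_rfl]
    exact h

/-! ### volume -/

/-- a ball of small volume around some vertex of a large ball -/
theorem low_pr (hp : 0 ≤ p) (hp1 : p ≤ 1) {C₂ : ℝ} (hC₂ : 0 ≤ C₂)
    (harm : ∀ (E : Finset (Ed d)) (x : V d) (r : ℕ), 1 ≤ r → PE p E {S | (sph S x r).Nonempty} ≤ C₂ / r)
    (E : Finset (Ed d)) (x : V d) (L : ℕ) {m : ℕ} (hm : 1 ≤ m) {v : ℝ} (hv : 0 ≤ v) :
    PE p E {S | ∃ z ∈ ball S x L, (vol S z (3 * m) : ℝ) ≤ v * (m : ℝ) ^ 2 ∧ (sph S x m).Nonempty} ≤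
      (1 + GG d p L / m) * ((125 * C₂ ^ 2 + 8) * v / m) := by
  classical
  have hm0 : (0 : ℝ) < m := by exact_mod_cast hm
  set c := (125 * C₂ ^ 2 + 8) * v / m with hc
  have hc0 : 0 ≤ c := by positivity
  set D : Set (Set (Ed d)) := {S | ∃ z l, 2 * m < l ∧ l ≤ L ∧ z ∈ sph S x l ∧
    (vol S z (3 * m) : ℝ) ≤ v * (m : ℝ) ^ 2} with hD
  have h1 : PE p E {S | ∃ z ∈ ball S x L, (vol S z (3 * m) : ℝ) ≤ v * (m : ℝ) ^ 2 ∧ (sph S x m).Nonempty} ≤
      PE p E {S | (vol S x m : ℝ) ≤ v * (m : ℝ) ^ 2 ∧ (sph S x m).Nonempty} + PE p E D := by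
    refine le_trans (PE_mono hp hp1 E ?_) (Pr_union_le (wt_p hp hp1) E _ _)
    rintro S ⟨z, hz, hv1, hne⟩
    obtain ⟨l, hl, hzl⟩ := ball_eq_sph.1 (mem_ball.1 hz)
    rcases Nat.lt_or_ge (2 * m) l with h4 | h4
    · exact Or.inr ⟨z, l, h4, hl, hzl, hv1⟩
    · refine Or.inl ⟨le_trans ?_ hv1, hne⟩
      refine Nat.cast_le.2 (card_le_card ?_)
      intro y hy
      rw [mem_ball] at hy ⊢
      exact ((mem_sph.1 hzl).1.symm.trans hy).mono subset_rfl (by omega)
  have h2 := smallvol hp hp1 hC₂ harm E x hm hv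
  have h3 : (m : ℝ) * PE p E D ≤ c * GG d p L := by
    refine master_const hp hp1 E x L (Q := fun u => {T | (vol T u m : ℝ) ≤ v * (m : ℝ) ^ 2 ∧ (sph T u m).Nonempty})
      hc0 (fun u E' _ => smallvol hp hp1 hC₂ harm E' u hm hv) ?_
    rintro S ⟨z, l, hl1, hl2, hz, hv1⟩
    refine ⟨Finset.Icc (l - 2 * m) (l - m), ?_, ?_⟩
    · rw [Nat.card_Icc]
      exact_mod_cast (by omega : m ≤ l - m + 1 - (l - 2 * m))
    · intro j hj
      rw [Finset.mem_Icc] at hj
      refine ⟨by omega, ?_⟩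
      have h6 : l = j + (l - j) := by omega
      have hz' := hz
      rw [h6] at hz'
      obtain ⟨u, hu, hy'⟩ := sph_rest hz'
      refine ⟨u, hu, le_trans ?_ hv1, sph_nonempty_of_le hy' (by omega)⟩
      refine Nat.cast_le.2 (card_le_card ?_)
      intro y hy
      rw [mem_ball] at hy ⊢
      have h7 : Rch S u (l - j) z := (mem_sph.1 hy').1.mono Set.sdiff_subset le_rfl
      have h8 : Rch S u m y := hy.mono Set.sdiff_subset le_rfl
      exact (h7.symm.trans h8).mono subset_rfl (by omega)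
  have h4 : PE p E D ≤ GG d p L / m * c := by
    calc PE p E D = (m : ℝ) * PE p E D / m := by field_simp
      _ ≤ c * GG d p L / m := div_le_div_of_nonneg_right h3 hm0.le
      _ = _ := by ring
  calc PE p E {S | ∃ z ∈ ball S x L, (vol S z (3 * m) : ℝ) ≤ v * (m : ℝ) ^ 2 ∧ (sph S x m).Nonempty} ≤
        c + GG d p L / m * c := by linarith
    _ = _ := by ring

/-! ### displacement -/

/-- a large displacement around some vertex of a large ball -/
theorem ext_pr (hp : 0 ≤ p) (hp1 : p ≤ 1) (E : Finset (Ed d)) (x : V d) (L : ℕ) {s : ℕ} (hs : 1 ≤ s) (a : ℝ) :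
    PE p E {S | ∃ z ∈ ball S x L, ∃ y, Rch S z s y ∧ a ≤ (dst z y : ℝ)} ≤
      (1 + GG d p L / s) * qs d p (3 * s) (a / 2) := by
  classical
  have hs0 : (0 : ℝ) < s := by exact_mod_cast hs
  set c := qs d p (3 * s) (a / 2) with hc
  have hc0 : 0 ≤ c := qs_nonneg hp hp1 _ _
  set D : Set (Set (Ed d)) := {S | ∃ z l y, 2 * s < l ∧ l ≤ L ∧ z ∈ sph S x l ∧ Rch S z s y ∧
    a ≤ (dst z y : ℝ)} with hD
  -- from a displacement between two points to a displacement from the root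
  have key : ∀ (T : Set (Ed d)) (u z y : V d), Rch T u (2 * s) z → Rch T z s y → a ≤ (dst z y : ℝ) →
      T ∈ DispE u (3 * s) (a / 2) := by
    intro T u z y h1 h2 h3
    by_cases h4 : a / 2 ≤ (dst u z : ℝ)
    · exact ⟨z, h1.mono subset_rfl (by omega), h4⟩
    · refine ⟨y, (h1.trans h2).mono subset_rfl (by omega), ?_⟩
      push Not at h4
      have h5 : (dst z y : ℝ) ≤ dst u z + dst u y := by
        have := dst_tri z u y
        rw [dst_comm z u] at this
        exact_mod_cast this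
      linarith
  have h1 : PE p E {S | ∃ z ∈ ball S x L, ∃ y, Rch S z s y ∧ a ≤ (dst z y : ℝ)} ≤
      PE p E (DispE x (3 * s) (a / 2)) + PE p E D := by
    refine le_trans (PE_mono hp hp1 E ?_) (Pr_union_le (wt_p hp hp1) E _ _)
    rintro S ⟨z, hz, y, hy, hay⟩
    obtain ⟨l, hl, hzl⟩ := ball_eq_sph.1 (mem_ball.1 hz)
    rcases Nat.lt_or_ge (2 * s) l with h4 | h4
    · exact Or.inr ⟨z, l, y, h4, hl, hzl, hy, hay⟩
    · exact Or.inl (key S x z y ((mem_sph.1 hzl).1.mono subset_rfl h4) hy hay)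
  have h3 : (s : ℝ) * PE p E D ≤ c * GG d p L := by
    refine master_const hp hp1 E x L (Q := fun u => DispE u (3 * s) (a / 2))
      hc0 (fun u E' _ => PE_le_qs hp hp1 E' u _ _) ?_
    rintro S ⟨z, l, y, hl1, hl2, hz, hy, hay⟩
    refine ⟨Finset.Ico (l - 2 * s) (l - s), ?_, ?_⟩
    · rw [Nat.card_Ico]
      exact_mod_cast (by omega : s ≤ l - s - (l - 2 * s))
    · intro j hj
      rw [Finset.mem_Ico] at hj
      refine ⟨by omega, ?_⟩
      have h6 : l = j + (l - j) := by omega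
      have hz' := hz
      rw [h6] at hz'
      obtain ⟨u, hu, hy'⟩ := sph_rest hz'
      refine ⟨u, hu, key _ u z y ((mem_sph.1 hy').1.mono subset_rfl (by omega)) ?_ hay⟩
      refine rch_far (s := s) (fun k hk => ?_) le_rfl hy
      have := (mem_sph.1 hz).2 k hk
      omega
  have h4 : PE p E D ≤ GG d p L / s * c := by
    calc PE p E D = (s : ℝ) * PE p E D / s := by field_simp
      _ ≤ c * GG d p L / s := div_le_div_of_nonneg_right h3 hs0.le
      _ = _ := by ring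
  have h5 := PE_le_qs hp hp1 E x (3 * s) (a / 2)
  calc PE p E {S | ∃ z ∈ ball S x L, ∃ y, Rch S z s y ∧ a ≤ (dst z y : ℝ)} ≤
        c + GG d p L / s * c := by linarith
    _ = _ := by ring

/-! ### transfer to the incipient infinite cluster -/

/-- the transfer inequality (D2), for events which are determined by the exploration up to level `r` and
depend on the open graph only -/
def Transfer (d : ℕ) (p : ℝ) [MeasurableSpace (Set (Ed d))] (ν : Measure (Set (Ed d))) : Prop :=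
  ∃ C : ℝ, 0 < C ∧ ∀ r : ℕ, 1 ≤ r → ∀ K : Set (Set (Ed d)), BDet 0 r K →
    (∀ S S' : Set (Ed d), openGraph S = openGraph S' → S ∈ K → S' ∈ K) →
    ∃ E : Finset (Ed d), ν.real K ≤ C * Real.sqrt (r * PE p E {S | S ∈ K ∧ (sph S (0 : V d) r).Nonempty})

private lemma ball_og {S S' : Set (Ed d)} (h : openGraph S = openGraph S') (x : V d) (k : ℕ) :
    ball S x k = ball S' x k := by
  ext y
  rw [mem_ball, mem_ball]
  unfold Rch
  rw [h]

private lemma exists_og (x : V d) (L s : ℕ) (F : V d → Finset (V d) → Prop) (S S' : Set (Ed d))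
    (h : openGraph S = openGraph S') (hS : ∃ z ∈ ball S x L, F z (ball S z s)) :
    ∃ z ∈ ball S' x L, F z (ball S' z s) := by
  obtain ⟨z, hz, hF⟩ := hS
  rw [ball_og h] at hz hF
  exact ⟨z, hz, hF⟩

lemma transfer_small {d : ℕ} [MeasurableSpace (Set (Ed d))] {ν : Measure (Set (Ed d))} {C : ℝ} (hC : 0 < C)
    {K : Set (Set (Ed d))} {P ε : ℝ} (hε : 0 < ε) (h : ν.real K ≤ C * Real.sqrt P) (hP : P ≤ (ε / C) ^ 2) :
    ν.real K ≤ ε := by
  refine h.trans ?_
  have h1 : Real.sqrt P ≤ ε / C := by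
    rw [← Real.sqrt_sq (div_pos hε hC).le]
    exact Real.sqrt_le_sqrt hP
  calc C * Real.sqrt P ≤ C * (ε / C) := mul_le_mul_of_nonneg_left h1 hC.le
    _ = ε := by field_simp

theorem low_nu (hp : 0 ≤ p) (hp1 : p ≤ 1) {C₁ C₂ : ℝ} (hC₁ : 0 ≤ C₁) (hC₂ : 0 ≤ C₂)
    (hG : ∀ r : ℕ, 1 ≤ r → GG d p r ≤ C₁ * r)
    (harm : ∀ (E : Finset (Ed d)) (x : V d) (r : ℕ), 1 ≤ r → PE p E {S | (sph S x r).Nonempty} ≤ C₂ / r)
    [MeasurableSpace (Set (Ed d))] {ν : Measure (Set (Ed d))} (hν : Transfer d p ν) (lam q : ℕ) (hlam : 1 ≤ lam)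
    (hq : 1 ≤ q) (ε : ℝ) (hε : 0 < ε) : ∃ v : ℝ, 0 < v ∧ ∃ R0 : ℕ, ∀ R ≥ R0,
    ν.real {S | ∃ z ∈ ball S (0 : V d) (lam * R), (vol S z (R / q) : ℝ) < v * (R : ℝ) ^ 2} ≤ ε := by
  obtain ⟨C, hC, hT⟩ := hν
  set M : ℝ := (lam + 1) * ((1 + 6 * q * lam * C₁) * ((125 * C₂ ^ 2 + 8) * 216 * q ^ 3)) with hM
  have hq0 : (0 : ℝ) < q := by exact_mod_cast hq
  have hlam0 : (0 : ℝ) < lam := by exact_mod_cast hlam
  have hM0 : 0 < M := by positivity
  set v : ℝ := (ε / C) ^ 2 / M with hv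
  have hv0 : 0 < v := by positivity
  refine ⟨v, hv0, 3 * q, fun R hR => ?_⟩
  have hR1 : 1 ≤ R := by omega
  have hR0 : (0 : ℝ) < R := by exact_mod_cast hR1
  obtain ⟨m, hm⟩ : ∃ m, m = R / q / 3 := ⟨_, rfl⟩
  have hRq : 3 ≤ R / q := by
    rw [Nat.le_div_iff_mul_le (by omega)]
    exact hR
  have hm1 : 1 ≤ m := by omega
  have hm0 : (0 : ℝ) < m := by exact_mod_cast hm1
  have h3m : 3 * m ≤ R / q := by omega
  have hmR : (R : ℝ) ≤ 6 * q * m := by
    have h1 : R < q * (R / q + 1) := Nat.lt_mul_div_succ R (by omega)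
    have h2 : R / q + 1 ≤ 6 * m := by omega
    have h3 : R ≤ q * (6 * m) := h1.le.trans (Nat.mul_le_mul_left q h2)
    have h4 : (R : ℝ) ≤ ((q * (6 * m) : ℕ) : ℝ) := by exact_mod_cast h3
    push_cast at h4
    linarith
  set K : Set (Set (Ed d)) := {S | ∃ z ∈ ball S (0 : V d) (lam * R), (vol S z (R / q) : ℝ) < v * (R : ℝ) ^ 2} with hK
  have hKB : BDet 0 ((lam + 1) * R) K := by
    have hr : lam * R + R / q ≤ (lam + 1) * R := by
      have := Nat.div_le_self R q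
      nlinarith
    exact bdet_exists (0 : V d) hr fun _ B => ((B.card : ℕ) : ℝ) < v * (R : ℝ) ^ 2
  have hr1 : 1 ≤ (lam + 1) * R := Nat.one_le_iff_ne_zero.2 (by positivity)
  obtain ⟨E, hE⟩ := hT ((lam + 1) * R) hr1 K hKB fun S S' h h1 =>
    exists_og 0 (lam * R) (R / q) (fun _ B => ((B.card : ℕ) : ℝ) < v * (R : ℝ) ^ 2) S S' h h1
  refine transfer_small hC hε hE ?_
  have h1 : PE p E {S | S ∈ K ∧ (sph S (0 : V d) ((lam + 1) * R)).Nonempty} ≤
      PE p E {S | ∃ z ∈ ball S (0 : V d) (lam * R), (vol S z (3 * m) : ℝ) ≤ (36 * q ^ 2 * v) * (m : ℝ) ^ 2 ∧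
        (sph S (0 : V d) m).Nonempty} := by
    refine PE_mono hp hp1 E ?_
    rintro S ⟨⟨z, hz, hv1⟩, y, hy⟩
    refine ⟨z, hz, ?_, sph_nonempty_of_le hy ?_⟩
    · have h2 : (vol S z (3 * m) : ℝ) ≤ vol S z (R / q) := by
        exact_mod_cast card_le_card (ball_mono subset_rfl h3m)
      have h3 : (R : ℝ) ^ 2 ≤ (6 * q * m) ^ 2 := pow_le_pow_left₀ hR0.le hmR 2
      calc (vol S z (3 * m) : ℝ) ≤ v * (R : ℝ) ^ 2 := h2.trans hv1.le
        _ ≤ v * (6 * q * m) ^ 2 := mul_le_mul_of_nonneg_left h3 hv0.le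
        _ = _ := by ring
    · have h2 := Nat.div_le_self R q
      nlinarith
  have h2 := low_pr hp hp1 hC₂ harm E (0 : V d) (lam * R) hm1 (v := 36 * q ^ 2 * v) (by positivity)
  have h3 : GG d p (lam * R) / m ≤ 6 * q * lam * C₁ := by
    rw [div_le_iff₀ hm0]
    have h4 := hG (lam * R) (Nat.one_le_iff_ne_zero.2 (by positivity))
    push_cast at h4
    calc GG d p (lam * R) ≤ C₁ * (lam * R) := h4
      _ ≤ C₁ * (lam * (6 * q * m)) := by
        apply mul_le_mul_of_nonneg_left _ hC₁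
        exact mul_le_mul_of_nonneg_left hmR hlam0.le
      _ = _ := by ring
  have h4 : (125 * C₂ ^ 2 + 8) * (36 * q ^ 2 * v) / m ≤ (125 * C₂ ^ 2 + 8) * 216 * q ^ 3 * v / R := by
    rw [div_le_div_iff₀ hm0 hR0]
    calc (125 * C₂ ^ 2 + 8) * (36 * q ^ 2 * v) * R ≤ (125 * C₂ ^ 2 + 8) * (36 * q ^ 2 * v) * (6 * q * m) :=
          mul_le_mul_of_nonneg_left hmR (by positivity)
      _ = _ := by ring
  have h5 : PE p E {S | S ∈ K ∧ (sph S (0 : V d) ((lam + 1) * R)).Nonempty} ≤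
      (1 + 6 * q * lam * C₁) * ((125 * C₂ ^ 2 + 8) * 216 * q ^ 3 * v / R) := by
    refine (h1.trans h2).trans ?_
    have h6 : 0 ≤ (125 * C₂ ^ 2 + 8) * (36 * q ^ 2 * v) / m := by positivity
    have h7 : 0 ≤ 6 * q * lam * C₁ := by positivity
    exact mul_le_mul (by linarith) h4 h6 (by linarith)
  calc (((lam + 1) * R : ℕ) : ℝ) * PE p E {S | S ∈ K ∧ (sph S (0 : V d) ((lam + 1) * R)).Nonempty} ≤
        (((lam + 1) * R : ℕ) : ℝ) * ((1 + 6 * q * lam * C₁) * ((125 * C₂ ^ 2 + 8) * 216 * q ^ 3 * v / R)) :=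
        mul_le_mul_of_nonneg_left h5 (Nat.cast_nonneg _)
    _ = M * v := by
      rw [hM]
      push_cast
      field_simp
    _ = (ε / C) ^ 2 := by
      rw [hv]
      field_simp

theorem ext_nu (hp : 0 ≤ p) (hp1 : p ≤ 1) {C₁ C₂ : ℝ} (h : PiData d (ppi p) C₁) (hC₂ : 0 ≤ C₂)
    (harm : ∀ (E : Finset (Ed d)) (x : V d) (r : ℕ), 1 ≤ r → PE p E {S | (sph S x r).Nonempty} ≤ C₂ / r)
    (i : Fin d) {c : ℝ} (hc : 0 < c)
    [MeasurableSpace (Set (Ed d))] {ν : Measure (Set (Ed d))} (hν : Transfer d p ν) (lam : ℕ) (hlam : 1 ≤ lam)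
    (η : ℝ) (hη : 0 < η) (ε : ℝ) (hε : 0 < ε) : ∃ q : ℕ, 1 ≤ q ∧ ∃ R0 : ℕ, ∀ R ≥ R0,
    ν.real {S | ∃ z ∈ ball S (0 : V d) (lam * R), η * scale (ppi p) C₁ i c R < (rad S z (R / q) : ℝ)} ≤ ε := by
  obtain ⟨C, hC, hT⟩ := hν
  have hC₁ := h.one_le
  have hα := h.alpha_one_le i
  obtain ⟨N₀, hN₀⟩ := disp hp hp1 h hC₂ harm i hc
  obtain ⟨n, hn⟩ := exists_nat_gt (3 / c)
  obtain ⟨K, hK, hqs⟩ := hN₀ (N₀ + n) (by omega)
  set N := N₀ + n with hN
  have hcN : 3 ≤ c * N := by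
    have h1 : (n : ℝ) ≤ N := by exact_mod_cast (by omega : n ≤ N)
    have h2 : 3 / c ≤ N := hn.le.trans h1
    rw [div_le_iff₀ hc] at h2
    linarith
  have hlam0 : (0 : ℝ) < lam := by exact_mod_cast hlam
  -- the constant
  set M : ℝ := (lam + 1) * ((1 + 2 * C₁ * lam) * (K * (2 * 3 ^ c / η) ^ N)) with hM
  have h3c : (0 : ℝ) < 3 ^ c := Real.rpow_pos_of_pos (by norm_num) c
  have hM0 : 0 < M := by positivity
  obtain ⟨q, hqq⟩ := exists_nat_gt (max (M / (ε / C) ^ 2) 3)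
  have hq3 : (3 : ℝ) < q := lt_of_le_of_lt (le_max_right _ _) hqq
  have hqM : M / (ε / C) ^ 2 < q := lt_of_le_of_lt (le_max_left _ _) hqq
  have hq3' : 3 < q := by exact_mod_cast hq3
  have hq0 : (0 : ℝ) < q := by linarith
  refine ⟨q, by omega, q, fun R hR => ?_⟩
  have hR1 : 1 ≤ R := by omega
  have hR0 : (0 : ℝ) < R := by exact_mod_cast hR1
  obtain ⟨s, hs⟩ : ∃ s, s = R / q := ⟨_, rfl⟩
  have hs1 : 1 ≤ s := by
    rw [hs, Nat.le_div_iff_mul_le (by omega), one_mul]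
    exact hR
  have hs0 : (0 : ℝ) < s := by exact_mod_cast hs1
  have hsR : q * s ≤ R := by
    rw [hs]
    exact Nat.mul_div_le R q
  have hsR' : (q : ℝ) * s ≤ R := by exact_mod_cast hsR
  have hRs : (R : ℝ) ≤ 2 * q * s := by
    have h1 : R < q * (R / q + 1) := Nat.lt_mul_div_succ R (by omega)
    rw [← hs] at h1
    have h2 : R ≤ q * (2 * s) := h1.le.trans (Nat.mul_le_mul_left q (by omega))
    have h3 : (R : ℝ) ≤ ((q * (2 * s) : ℕ) : ℝ) := by exact_mod_cast h2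
    push_cast at h3
    linarith
  have h3sR : 3 * s ≤ R := by nlinarith
  set A : ℕ → ℝ := scale (ppi p) C₁ i c with hA
  have hAR : 0 < A R := env_pos hα R
  have hA3 : 0 < A (3 * s) := env_pos hα (3 * s)
  set Kv : Set (Set (Ed d)) := {S | ∃ z ∈ ball S (0 : V d) (lam * R), η * A R < (rad S z (R / q) : ℝ)} with hKv
  have hKB : BDet 0 ((lam + 1) * R) Kv := by
    have hr : lam * R + R / q ≤ (lam + 1) * R := by
      have := Nat.div_le_self R q
      nlinarith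
    exact bdet_exists (0 : V d) hr fun z B => η * A R < ((B.sup fun y => dst z y : ℕ) : ℝ)
  have hr1 : 1 ≤ (lam + 1) * R := Nat.one_le_iff_ne_zero.2 (by positivity)
  obtain ⟨E, hE⟩ := hT ((lam + 1) * R) hr1 Kv hKB fun S S' h h1 =>
    exists_og 0 (lam * R) (R / q) (fun z B => η * A R < ((B.sup fun y => dst z y : ℕ) : ℝ)) S S' h h1
  refine transfer_small hC hε hE ?_
  have h1 : PE p E {S | S ∈ Kv ∧ (sph S (0 : V d) ((lam + 1) * R)).Nonempty} ≤
      PE p E {S | ∃ z ∈ ball S (0 : V d) (lam * R), ∃ y, Rch S z s y ∧ η * A R ≤ (dst z y : ℝ)} := by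
    refine PE_mono hp hp1 E ?_
    rintro S ⟨⟨z, hz, hv1⟩, _⟩
    obtain ⟨y, hy, hyr⟩ := exists_mem_eq_sup (ball S z (R / q)) ⟨z, self_mem_ball S z _⟩ fun y => dst z y
    refine ⟨z, hz, y, ?_, ?_⟩
    · rw [hs]
      exact mem_ball.1 hy
    · have h2 : rad S z (R / q) = dst z y := hyr
      rw [← h2]
      exact hv1.le
  have h2 := ext_pr hp hp1 E (0 : V d) (lam * R) hs1 (η * A R)
  have h3 : GG d p (lam * R) / s ≤ 2 * C₁ * lam * q := by
    rw [div_le_iff₀ hs0]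
    have h4 : GG d p (lam * R) ≤ C₁ * ((lam * R : ℕ) : ℝ) := h.G_le (lam * R) (Nat.one_le_iff_ne_zero.2 (by positivity))
    push_cast at h4
    calc GG d p (lam * R) ≤ C₁ * (lam * R) := h4
      _ ≤ C₁ * (lam * (2 * q * s)) := by
        apply mul_le_mul_of_nonneg_left _ (by linarith)
        exact mul_le_mul_of_nonneg_left hRs hlam0.le
      _ = _ := by ring
  have h4 := hqs (3 * s) (by omega) (η * A R / 2) (by positivity)
  have h5 : A (3 * s) / (η * A R / 2) ≤ 2 * 3 ^ c / η * (1 / q) ^ c := by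
    have h6 : A (3 * s) ≤ A R * (((3 * s : ℕ) : ℝ) / R) ^ c := env_scale (by omega) h3sR
    have h7 : (((3 * s : ℕ) : ℝ) / R) ^ c ≤ 3 ^ c * (1 / q) ^ c := by
      rw [← Real.mul_rpow (by norm_num) (by positivity)]
      apply Real.rpow_le_rpow (by positivity) _ hc.le
      push_cast
      rw [div_le_iff₀ hR0]
      calc (3 : ℝ) * s = 3 * (1 / q) * (q * s) := by field_simp
        _ ≤ 3 * (1 / q) * R := mul_le_mul_of_nonneg_left hsR' (by positivity)
    rw [div_le_iff₀ (by positivity)]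
    calc A (3 * s) ≤ A R * (3 ^ c * (1 / q) ^ c) := h6.trans (mul_le_mul_of_nonneg_left h7 hAR.le)
      _ = _ := by
        field_simp
  have hqc : (0 : ℝ) < (1 / (q : ℝ)) ^ c := Real.rpow_pos_of_pos (by positivity) c
  have h6 : (A (3 * s) / (η * A R / 2)) ^ N ≤ (2 * 3 ^ c / η) ^ N * (1 / (q : ℝ)) ^ 3 := by
    calc (A (3 * s) / (η * A R / 2)) ^ N ≤ (2 * 3 ^ c / η * (1 / q) ^ c) ^ N :=
          pow_le_pow_left₀ (by positivity) h5 N
      _ = (2 * 3 ^ c / η) ^ N * ((1 / (q : ℝ)) ^ c) ^ N := by rw [mul_pow]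
      _ ≤ (2 * 3 ^ c / η) ^ N * (1 / (q : ℝ)) ^ 3 := by
        apply mul_le_mul_of_nonneg_left _ (by positivity)
        rw [← Real.rpow_natCast ((1 / (q : ℝ)) ^ c) N, ← Real.rpow_mul (by positivity), ← Real.rpow_natCast (1 / (q : ℝ)) 3]
        apply Real.rpow_le_rpow_of_exponent_ge (by positivity)
        · rw [div_le_one hq0]
          linarith
        · push_cast
          exact hcN
  have h7 : qs d p (3 * s) (η * A R / 2) ≤ K * (2 * 3 ^ c / η) ^ N * (1 / (q : ℝ)) ^ 2 / R := by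
    refine h4.trans ?_
    have h8 : K / ((3 * s : ℕ) : ℝ) ≤ K * q / R := by
      rw [div_le_div_iff₀ (by positivity) hR0]
      push_cast
      have h9 : (R : ℝ) ≤ q * (3 * s) := by
        have h10 : 0 ≤ (q : ℝ) * s := by positivity
        linarith
      calc K * (R : ℝ) ≤ K * (q * (3 * s)) := mul_le_mul_of_nonneg_left h9 hK.le
        _ = K * q * (3 * s) := by ring
    calc K / ((3 * s : ℕ) : ℝ) * (A (3 * s) / (η * A R / 2)) ^ N ≤
          K * q / R * ((2 * 3 ^ c / η) ^ N * (1 / (q : ℝ)) ^ 3) :=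
          mul_le_mul h8 h6 (by positivity) (by positivity)
      _ = _ := by
        field_simp
  have h8 : PE p E {S | S ∈ Kv ∧ (sph S (0 : V d) ((lam + 1) * R)).Nonempty} ≤
      (1 + 2 * C₁ * lam) * q * (K * (2 * 3 ^ c / η) ^ N * (1 / (q : ℝ)) ^ 2 / R) := by
    refine (h1.trans h2).trans ?_
    have h9 : 1 + GG d p (lam * R) / s ≤ (1 + 2 * C₁ * lam) * q := by
      have : (1 : ℝ) ≤ q := by linarith
      nlinarith
    have h10 := qs_nonneg (d := d) hp hp1 (3 * s) (η * A R / 2)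
    exact mul_le_mul h9 h7 h10 (by positivity)
  calc (((lam + 1) * R : ℕ) : ℝ) * PE p E {S | S ∈ Kv ∧ (sph S (0 : V d) ((lam + 1) * R)).Nonempty} ≤
        (((lam + 1) * R : ℕ) : ℝ) * ((1 + 2 * C₁ * lam) * q * (K * (2 * 3 ^ c / η) ^ N * (1 / (q : ℝ)) ^ 2 / R)) :=
        mul_le_mul_of_nonneg_left h8 (Nat.cast_nonneg _)
    _ = M / q := by
      rw [hM]
      push_cast
      field_simp
    _ ≤ (ε / C) ^ 2 := by
      rw [div_lt_iff₀ (by positivity)] at hqM
      rw [div_le_iff₀ hq0]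
      linarith

end Pool.Agent.Lib.MP_06caae_pr
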