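import Pool.Agent.Lib.MP_06caae_pr.ExplB
import Pool.Agent.Lib.MP_06caae_pr.Inv

/-!
# Counting levels along a geodesic

`master`: if on the event `D` there are at least `m` levels `j ≤ L` which contain a vertex `u` such that the
configuration outside the explored part has the property `Q u`, then
`m P(D) ≤ ∑_u c(u) P(d(x, u) ≤ L)`, where `c(u)` bounds the probability of `Q u` in all volumes.
-/

open Finset SimpleGraph
open Pool.Agent.Lib.MP_566bac_pr.Zd

namespace Pool.Agent.Lib.MP_06caae_pr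

variable {d : ℕ} {p : ℝ}

theorem master (hp : 0 ≤ p) (hp1 : p ≤ 1) (E : Finset (Ed d)) (x : V d) (L : ℕ) {Q : V d → Set (Set (Ed d))}
    {c : V d → ℝ} (hc0 : ∀ u, 0 ≤ c u) (hc : ∀ (u : V d) (E' : Finset (Ed d)), E' ⊆ E → PE p E' (Q u) ≤ c u)
    {D : Set (Set (Ed d))} {m : ℝ}
    (hD : ∀ S ∈ D, ∃ J : Finset ℕ, m ≤ J.card ∧ ∀ j ∈ J, j ≤ L ∧ ∃ u ∈ sph S x j, S \ tb x j S ∈ Q u) :
    m * PE p E D ≤ ∑ u ∈ Lam x L, c u * PE p E {S | Rch S x L u} := by
  classical
  have hw : Wt (fun _ : Ed d => p) := fun _ => ⟨hp, hp1⟩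
  have h1 : m * PE p E D ≤ ∑ j ∈ range (L + 1), ∑ u ∈ Lam x L,
      PE p E {S | u ∈ sph S x j ∧ S \ tb x j S ∈ Q u} := by
    have h2 : m * PE p E D = Ex (fun _ => p) E (fun S => m * ind (S ∈ D)) := by
      rw [Ex_mul, Ex_ind]
      rfl
    have h3 : ∑ j ∈ range (L + 1), ∑ u ∈ Lam x L, PE p E {S | u ∈ sph S x j ∧ S \ tb x j S ∈ Q u} =
        Ex (fun _ => p) E (fun S => ∑ j ∈ range (L + 1), ∑ u ∈ Lam x L,
          ind (S ∈ {S | u ∈ sph S x j ∧ S \ tb x j S ∈ Q u})) := by
      rw [Ex_sum]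
      refine sum_congr rfl fun j _ => ?_
      rw [Ex_sum]
      refine sum_congr rfl fun u _ => ?_
      rw [Ex_ind]
      rfl
    rw [h2, h3]
    refine Ex_mono hw fun S => ?_
    by_cases hS : S ∈ D
    · rw [ind_true hS, mul_one]
      obtain ⟨J, hJ, h4⟩ := hD S hS
      refine hJ.trans ?_
      have h5 : (J.card : ℝ) = ∑ _j ∈ J, (1 : ℝ) := by rw [sum_const, nsmul_eq_mul, mul_one]
      rw [h5]
      refine (sum_le_sum fun j hj => ?_).trans (sum_le_sum_of_subset_of_nonneg (s := J)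
        (f := fun j => ∑ u ∈ Lam x L, ind (S ∈ {S | u ∈ sph S x j ∧ S \ tb x j S ∈ Q u})) ?_ ?_)
      · obtain ⟨h6, u, hu, h7⟩ := h4 j hj
        have h8 : u ∈ Lam x L := by
          rw [mem_Lam, dst_comm]
          exact (rch_dst (mem_sph.1 hu).1).trans h6
        calc (1 : ℝ) = ind (S ∈ {S | u ∈ sph S x j ∧ S \ tb x j S ∈ Q u}) := (ind_true ⟨hu, h7⟩).symm
          _ ≤ _ := single_le_sum (f := fun u => ind (S ∈ {S | u ∈ sph S x j ∧ S \ tb x j S ∈ Q u}))
            (fun _ _ => ind_nonneg _) h8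
      · intro j hj
        exact mem_range.2 (Nat.lt_succ_of_le (h4 j hj).1)
      · intro j _ _
        exact sum_nonneg fun u _ => ind_nonneg _
    · rw [ind_false hS, mul_zero]
      exact sum_nonneg fun j _ => sum_nonneg fun u _ => ind_nonneg _
  refine h1.trans ?_
  rw [sum_comm]
  refine sum_le_sum fun u _ => ?_
  have h2 : ∀ j ∈ range (L + 1), PE p E {S | u ∈ sph S x j ∧ S \ tb x j S ∈ Q u} ≤
      c u * PE p E {S | u ∈ sph S x j} := fun j _ => pr_marked hp hp1 E x u j (hc u)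
  refine (sum_le_sum h2).trans ?_
  rw [← mul_sum]
  refine mul_le_mul_of_nonneg_left ?_ (hc0 u)
  have h3 : ∑ j ∈ range (L + 1), PE p E {S | u ∈ sph S x j} =
      Ex (fun _ => p) E (fun S => ∑ j ∈ range (L + 1), ind (S ∈ {S | u ∈ sph S x j})) := by
    rw [Ex_sum]
    refine sum_congr rfl fun j _ => ?_
    rw [Ex_ind]
    rfl
  have h4 : PE p E {S | Rch S x L u} = Ex (fun _ => p) E (fun S => ind (S ∈ {S | Rch S x L u})) := by
    rw [Ex_ind]
    rfl
  rw [h3, h4]
  refine Ex_mono hw fun S => ?_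
  by_cases h5 : ∃ j ∈ range (L + 1), u ∈ sph S x j
  · obtain ⟨j, hj, hu⟩ := h5
    have h6 : Rch S x L u := (mem_sph.1 hu).1.mono subset_rfl (Nat.le_of_lt_succ (mem_range.1 hj))
    rw [ind_true (show S ∈ {S | Rch S x L u} from h6), sum_eq_single j]
    · exact ind_le_one _
    · intro i _ hij
      refine ind_false fun h7 => hij ?_
      exact sph_unique h7 hu
    · intro h7
      exact absurd hj h7
  · push Not at h5
    rw [sum_eq_zero fun j hj => ind_false (show ¬ S ∈ {S | u ∈ sph S x j} from h5 j hj)]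
    exact ind_nonneg _

/-- the version with the expected volume -/
theorem master_const (hp : 0 ≤ p) (hp1 : p ≤ 1) (E : Finset (Ed d)) (x : V d) (L : ℕ) {Q : V d → Set (Set (Ed d))}
    {c : ℝ} (hc0 : 0 ≤ c) (hc : ∀ (u : V d) (E' : Finset (Ed d)), E' ⊆ E → PE p E' (Q u) ≤ c)
    {D : Set (Set (Ed d))} {m : ℝ}
    (hD : ∀ S ∈ D, ∃ J : Finset ℕ, m ≤ J.card ∧ ∀ j ∈ J, j ≤ L ∧ ∃ u ∈ sph S x j, S \ tb x j S ∈ Q u) :
    m * PE p E D ≤ c * GG d p L := by
  refine (master hp hp1 E x L (c := fun _ => c) (fun _ => hc0) hc hD).trans ?_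
  rw [← mul_sum]
  refine mul_le_mul_of_nonneg_left ?_ hc0
  refine (sum_le_sum fun u _ => PE_le_ppi hp hp1 E x u L).trans ?_
  exact sum_ppi_sub_le hp hp1 L _ x

/-- a geodesic after level `i` does not use the explored part -/
lemma rch_off {S : Set (Ed d)} {x u : V d} {i : ℕ} (hu : u ∈ sph S x i) :
    ∀ {j : ℕ} {y : V d}, Rch S u j y → y ∈ sph S x (i + j) → Rch (S \ tb x i S) u j y := by
  intro j
  induction j with
  | zero =>
    intro y h _
    rw [rch_zero] at h ⊢
    exact h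
  | succ j ih =>
    intro y h hy
    obtain ⟨hy1, hy2⟩ := mem_sph.1 hy
    rw [rch_succ] at h
    rcases h with h | ⟨z, hz, hzy, he⟩
    · subst h
      have := hy2 i (mem_sph.1 hu).1
      omega
    · have hz1 : Rch S x (i + j) z := (mem_sph.1 hu).1.trans hz
      have hz2 : z ∈ sph S x (i + j) := by
        refine mem_sph.2 ⟨hz1, fun k hk => ?_⟩
        have h3 := hy2 (k + 1) (hk.trans (Rch.step hzy he))
        omega
      refine rch_succ.2 (Or.inr ⟨z, ih hz hz2, hzy, he, ?_⟩)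
      rintro ⟨k, hk, v, hv, hev⟩
      have hv' : Rch S x k v := mem_ball.1 hv
      rw [Sym2.mem_iff] at hev
      rcases hev with rfl | rfl
      · have := (mem_sph.1 hz2).2 k hv'
        omega
      · have := hy2 k hv'
        omega

/-- cut a geodesic at level `i`: the end point is at the right distance in the unexplored part -/
lemma cut_off {S : Set (Ed d)} {x y : V d} {i j : ℕ} (h : y ∈ sph S x (i + j)) :
    ∃ u ∈ sph S x i, y ∈ sph (S \ tb x i S) u j := sph_rest h

lemma sph_nonempty_of_le {S : Set (Ed d)} {x y : V d} {i k : ℕ} (h : y ∈ sph S x k) (hi : i ≤ k) :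
    (sph S x i).Nonempty := by
  obtain ⟨j, rfl⟩ := Nat.exists_eq_add_of_le hi
  obtain ⟨u, hu, _⟩ := box_cut h
  exact ⟨u, hu⟩

/-- a path of length `s` from `z` does not meet the explored part if `z` is at level more than `j + s` -/
lemma rch_far {S : Set (Ed d)} {x z : V d} {j s : ℕ} (hz : ∀ k, Rch S x k z → j + s ≤ k) :
    ∀ {t : ℕ} {y : V d}, t ≤ s → Rch S z t y → Rch (S \ tb x j S) z t y := by
  intro t
  induction t with
  | zero =>
    intro y _ h
    rw [rch_zero] at h ⊢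
    exact h
  | succ t ih =>
    intro y ht h
    rw [rch_succ] at h
    rcases h with h | ⟨v, hv, hvy, he⟩
    · subst h
      exact Rch.refl _ _ _
    · refine rch_succ.2 (Or.inr ⟨v, ih (by omega) hv, hvy, he, ?_⟩)
      rintro ⟨k, hk, w, hw, hew⟩
      have hw' : Rch S x k w := mem_ball.1 hw
      rw [Sym2.mem_iff] at hew
      rcases hew with rfl | rfl
      · have := hz (k + t) (hw'.trans hv.symm)
        omega
      · have h2 : Rch S z (t + 1) w := hv.trans (Rch.step hvy he)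
        have := hz (k + (t + 1)) (hw'.trans h2.symm)
        omega

end Pool.Agent.Lib.MP_06caae_pr
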