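import Pool.Agent.Lib.MP_06caae_pr.B.Master

/-!
# Small volume of a surviving ball
-/

open Finset SimpleGraph
open Pool.Agent.Lib.MP_566bac_pr.Zd

namespace Pool.Agent.Lib.MP_06caae_pr

variable {d : ℕ} {p : ℝ}

/-- the spheres of different radii are disjoint subsets of the ball -/
lemma sum_sph_le (S : Set (Ed d)) (x : V d) (r : ℕ) (J : Finset ℕ) (hJ : ∀ j ∈ J, j ≤ r) :
    ∑ j ∈ J, (sph S x j).card ≤ vol S x r := by
  classical
  unfold vol
  rw [← card_biUnion]
  · refine card_le_card ?_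
    intro y hy
    rw [mem_biUnion] at hy
    obtain ⟨j, hj, hy⟩ := hy
    exact mem_ball.2 ((mem_sph.1 hy).1.mono subset_rfl (hJ j hj))
  · intro i _ j _ hij
    show Disjoint (sph S x i) (sph S x j)
    rw [Finset.disjoint_left]
    intro y hyi hyj
    exact hij (sph_unique hyi hyj)

lemma vol_pos (S : Set (Ed d)) (x : V d) (r : ℕ) : 1 ≤ vol S x r :=
  Finset.card_pos.2 ⟨x, self_mem_ball S x r⟩

/-- **C1.** -/
theorem smallvol (hp : 0 ≤ p) (hp1 : p ≤ 1) {C₂ : ℝ} (hC₂ : 0 ≤ C₂)
    (harm : ∀ (E : Finset (Ed d)) (x : V d) (r : ℕ), 1 ≤ r → PE p E {S | (sph S x r).Nonempty} ≤ C₂ / r)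
    (E : Finset (Ed d)) (x : V d) {r : ℕ} (hr : 1 ≤ r) {v : ℝ} (hv : 0 ≤ v) :
    PE p E {S | (vol S x r : ℝ) ≤ v * (r : ℝ) ^ 2 ∧ (sph S x r).Nonempty} ≤ (125 * C₂ ^ 2 + 8) * v / r := by
  classical
  have hw : Wt (fun _ : Ed d => p) := fun _ => ⟨hp, hp1⟩
  have hr0 : (0 : ℝ) < r := by exact_mod_cast hr
  by_cases hr3 : r < 3
  · -- small radii
    by_cases hv4 : v < 1 / 4
    · have : {S : Set (Ed d) | (vol S x r : ℝ) ≤ v * (r : ℝ) ^ 2 ∧ (sph S x r).Nonempty} = ∅ := by
        ext S
        simp only [Set.mem_ofPred_eq, Set.mem_empty_iff_false, iff_false, not_and]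
        intro h
        exfalso
        have h1 : (1 : ℝ) ≤ vol S x r := by exact_mod_cast vol_pos S x r
        have h2 : (r : ℝ) ≤ 2 := by exact_mod_cast (by omega : r ≤ 2)
        have h3 : (r : ℝ) ^ 2 ≤ 4 := by nlinarith
        have h4 : v * (r : ℝ) ^ 2 ≤ v * 4 := mul_le_mul_of_nonneg_left h3 hv
        linarith
      rw [this]
      refine le_trans (le_of_eq (Pr_empty_set _ _)) ?_
      positivity
    · push Not at hv4
      refine (PE_le_one hp hp1 _ _).trans ?_
      rw [le_div_iff₀ hr0]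
      have h2 : (r : ℝ) ≤ 2 := by exact_mod_cast (by omega : r ≤ 2)
      have h3 : 0 ≤ 125 * C₂ ^ 2 * v := by positivity
      nlinarith
  · push Not at hr3
    set m := r / 3 with hm
    have hm1 : 1 ≤ m := by omega
    have hm0 : (0 : ℝ) < m := by exact_mod_cast hm1
    have hmr : (r : ℝ) ≤ 5 * m := by exact_mod_cast (by omega : r ≤ 5 * m)
    set κ := 5 * v * r with hκ
    have hκ0 : 0 ≤ κ := by positivity
    set K : ℕ → Set (Set (Ed d)) := fun j => {S | ((sph S x j).card : ℝ) ≤ κ ∧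
      ∀ i, m ≤ i → i < j → κ < ((sph S x i).card : ℝ)} with hK
    have hKB : ∀ j, BDet x j (K j) := by
      intro j
      rw [bdet_iff]
      intro S S' hS
      refine propext ?_
      have h1 := sph_agree hS
      simp only [hK, Set.mem_ofPred_eq]
      rw [h1 j le_rfl]
      constructor
      · rintro ⟨h2, h3⟩
        refine ⟨h2, fun i hi hij => ?_⟩
        have := h3 i hi hij
        rwa [h1 i hij.le] at this
      · rintro ⟨h2, h3⟩
        refine ⟨h2, fun i hi hij => ?_⟩
        rw [h1 i hij.le]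
        exact h3 i hi hij
    have h1 : PE p E {S | (vol S x r : ℝ) ≤ v * (r : ℝ) ^ 2 ∧ (sph S x r).Nonempty} ≤
        ∑ j ∈ Finset.Ico m (2 * m), PE p E {S | S ∈ K j ∧ (sph S x (j + m)).Nonempty} := by
      refine le_trans (PE_mono hp hp1 E ?_) (Pr_biUnion_le hw E (Finset.Ico m (2 * m))
        (fun j => {S | S ∈ K j ∧ (sph S x (j + m)).Nonempty}))
      rintro ω ⟨h2, h3⟩
      rw [Set.mem_iUnion₂]
      -- a level with few vertices
      have h4 : ∃ j, j ∈ Finset.Ico m (2 * m) ∧ ((sph ω x j).card : ℝ) ≤ κ := by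
        by_contra h5
        push Not at h5
        have h6 : ∑ _j ∈ Finset.Ico m (2 * m), κ ≤ ∑ j ∈ Finset.Ico m (2 * m), ((sph ω x j).card : ℝ) :=
          sum_le_sum fun j hj => (h5 j hj).le
        have h6' : ∑ _j ∈ Finset.Ico m (2 * m), κ < ∑ j ∈ Finset.Ico m (2 * m), ((sph ω x j).card : ℝ) :=
          sum_lt_sum_of_nonempty ⟨m, Finset.mem_Ico.2 ⟨le_rfl, by omega⟩⟩ fun j hj => h5 j hj
        have h7 := sum_sph_le ω x r (Finset.Ico m (2 * m)) fun j hj => by
          rw [Finset.mem_Ico] at hj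
          omega
        have h8 : ∑ j ∈ Finset.Ico m (2 * m), ((sph ω x j).card : ℝ) ≤ vol ω x r := by
          exact_mod_cast h7
        rw [sum_const, Nat.card_Ico, nsmul_eq_mul] at h6'
        have h9 : ((2 * m - m : ℕ) : ℝ) = m := by
          have : 2 * m - m = m := by omega
          rw [this]
        rw [h9, hκ] at h6'
        have h10 : v * (r : ℝ) ^ 2 ≤ (m : ℝ) * (5 * v * r) := by
          have : v * r * (r : ℝ) ≤ v * r * (5 * m) := mul_le_mul_of_nonneg_left hmr (by positivity)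
          nlinarith
        linarith
      obtain ⟨hj1, hj2⟩ := Nat.find_spec h4
      set j := Nat.find h4 with hj
      rw [Finset.mem_Ico] at hj1
      refine ⟨j, Finset.mem_Ico.2 hj1, ⟨hj2, fun i hi hij => ?_⟩, ?_⟩
      · by_contra h5
        push Not at h5
        exact Nat.find_min h4 hij ⟨Finset.mem_Ico.2 ⟨hi, by omega⟩, h5⟩
      · obtain ⟨y, hy⟩ := h3
        exact sph_nonempty_of_le hy (by omega)
    have h2 : ∀ j ∈ Finset.Ico m (2 * m), PE p E {S | S ∈ K j ∧ (sph S x (j + m)).Nonempty} ≤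
        C₂ / m * κ * PE p E {S | S ∈ K j ∧ (sph S x m).Nonempty} := by
      intro j hj
      rw [Finset.mem_Ico] at hj
      refine (pr_arm hp hp1 E x j m (hKB j) fun u E' _ => harm E' u m hm1).trans ?_
      rw [mul_assoc]
      refine mul_le_mul_of_nonneg_left ?_ (by positivity)
      have h3 : κ * PE p E {S | S ∈ K j ∧ (sph S x m).Nonempty} =
          EE p E (fun S => κ * ind (S ∈ {S | S ∈ K j ∧ (sph S x m).Nonempty})) := by
        unfold EE PE
        rw [Ex_mul, Ex_ind]
      rw [h3]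
      unfold EE
      refine Ex_mono hw fun S => ?_
      by_cases h4 : S ∈ K j
      · rw [ind_true h4, one_mul]
        by_cases h5 : (sph S x j).Nonempty
        · obtain ⟨y, hy⟩ := h5
          have h6 : S ∈ {S | S ∈ K j ∧ (sph S x m).Nonempty} := ⟨h4, sph_nonempty_of_le hy hj.1⟩
          rw [ind_true h6, mul_one]
          exact h4.1
        · rw [not_nonempty_iff_eq_empty] at h5
          rw [h5, card_empty, Nat.cast_zero]
          exact mul_nonneg hκ0 (ind_nonneg _)
      · rw [ind_false h4, zero_mul]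
        exact mul_nonneg hκ0 (ind_nonneg _)
    have h3 : ∑ j ∈ Finset.Ico m (2 * m), PE p E {S | S ∈ K j ∧ (sph S x m).Nonempty} ≤
        PE p E {S | (sph S x m).Nonempty} := by
      have h4 : ∑ j ∈ Finset.Ico m (2 * m), PE p E {S | S ∈ K j ∧ (sph S x m).Nonempty} =
          Ex (fun _ => p) E (fun S => ∑ j ∈ Finset.Ico m (2 * m), ind (S ∈ {S | S ∈ K j ∧ (sph S x m).Nonempty})) := by
        rw [Ex_sum]
        refine sum_congr rfl fun j _ => ?_
        rw [Ex_ind]
        rfl
      have h5 : PE p E {S | (sph S x m).Nonempty} = Ex (fun _ => p) E (fun S => ind (S ∈ {S | (sph S x m).Nonempty})) := by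
        rw [Ex_ind]
        rfl
      rw [h4, h5]
      refine Ex_mono hw fun S => ?_
      by_cases h6 : ∃ j ∈ Finset.Ico m (2 * m), S ∈ K j ∧ (sph S x m).Nonempty
      · obtain ⟨j, hj, h7, h8⟩ := h6
        rw [ind_true (show S ∈ {S | (sph S x m).Nonempty} from h8), sum_eq_single j]
        · exact ind_le_one _
        · intro i hi hij
          refine ind_false ?_
          rintro ⟨h9, _⟩
          rcases Nat.lt_or_gt_of_ne hij with h10 | h10
          · have := h7.2 i (Finset.mem_Ico.1 hi).1 h10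
            exact absurd h9.1 (not_le.2 this)
          · have := h9.2 j (Finset.mem_Ico.1 hj).1 h10
            exact absurd h7.1 (not_le.2 this)
        · intro h9
          exact absurd hj h9
      · push Not at h6
        rw [sum_eq_zero fun j hj => ind_false (show ¬ S ∈ {S | S ∈ K j ∧ (sph S x m).Nonempty} from
          fun h7 => absurd h7.2 (by rw [h6 j hj h7.1]; exact not_nonempty_empty))]
        exact ind_nonneg _
    have h4 := harm E x m hm1
    calc PE p E {S | (vol S x r : ℝ) ≤ v * (r : ℝ) ^ 2 ∧ (sph S x r).Nonempty} ≤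
          ∑ j ∈ Finset.Ico m (2 * m), C₂ / m * κ * PE p E {S | S ∈ K j ∧ (sph S x m).Nonempty} :=
          h1.trans (sum_le_sum h2)
      _ = C₂ / m * κ * ∑ j ∈ Finset.Ico m (2 * m), PE p E {S | S ∈ K j ∧ (sph S x m).Nonempty} := by rw [mul_sum]
      _ ≤ C₂ / m * κ * (C₂ / m) := mul_le_mul_of_nonneg_left (h3.trans h4) (by positivity)
      _ ≤ 125 * C₂ ^ 2 * v / r := by
        rw [hκ, div_mul_eq_mul_div, div_mul_div_comm, div_le_div_iff₀ (by positivity) hr0]
        have h5 : (r : ℝ) * r ≤ (5 * m) * (5 * m) := mul_le_mul hmr hmr hr0.le (by positivity)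
        have h6 : 0 ≤ 5 * C₂ ^ 2 * v := by positivity
        nlinarith
      _ ≤ (125 * C₂ ^ 2 + 8) * v / r := by
        apply div_le_div_of_nonneg_right _ hr0.le
        nlinarith

end Pool.Agent.Lib.MP_06caae_pr
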